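import Mathlib

/-! Abstract extension machine for path systems in abelian groups (used for `MP_451483_gt`). -/

open Set Filter Topology

namespace Pool.Agent.H66

universe u v w

/-- the open unit interval -/
abbrev Iu : Type := Ioo (0 : ℝ) 1

/-- the path through `0`, the points `c t` (`0 < t < 1`) and `y`. -/
noncomputable def ext {M : Type*} [Zero M] (y : M) (c : Iu → M) (t : ℝ) : M :=
  if h : t ∈ Ioo (0 : ℝ) 1 then c ⟨t, h⟩ else if t ≤ 0 then 0 else y

theorem ext_mem {M : Type*} [Zero M] {y : M} {c : Iu → M} (t : Iu) : ext y c t = c t := by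
  have h : (t : ℝ) ∈ Ioo (0 : ℝ) 1 := t.2
  simp only [ext, h, dite_true]

theorem ext_zero {M : Type*} [Zero M] {y : M} {c : Iu → M} : ext y c 0 = 0 := by
  simp [ext]

theorem ext_one {M : Type*} [Zero M] {y : M} {c : Iu → M} : ext y c 1 = y := by
  simp [ext]

theorem map_ext {M M' F : Type*} [Zero M] [Zero M'] [FunLike F M M'] [ZeroHomClass F M M']
    (φ : F) (y : M) (c : Iu → M) (t : ℝ) : φ (ext y c t) = ext (φ y) (fun t => φ (c t)) t := by
  unfold ext
  split_ifs <;> simp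

section Machine

variable {K : Type v} [AddCommGroup K] (N : AddGroupSeminorm K)

/-- a good path from `0` to `a` -/
structure GoodPath (m : Iu → ℕ) (a : K) (c : Iu → K) : Prop where
  cont : ∀ t₀ ∈ Icc (0 : ℝ) 1,
    Tendsto (fun t => N (ext a c t - ext a c t₀)) (𝓝[Icc 0 1] t₀) (𝓝 0)
  ord : ∀ t, m t • c t = 0
  norm : ∀ t : Iu, N (c t) ≤ (1 + t) / 2 * N a

/-- everything killed by `e` can be reached by good paths of the given orders, flexibly -/
structure Reach (e : ℕ) (m : Iu → ℕ) : Prop where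
  exists_path : ∀ a : K, e • a = 0 → ∃ c, GoodPath N m a c
  exists_two : ∀ a : K, e • a = 0 → 0 < N a → ∀ (t₁ : Iu) (F : Finset Iu) (k₁ : ℤ),
    ¬ (m t₁ : ℤ) ∣ k₁ → ∃ c c', GoodPath N m a c ∧ GoodPath N m a c' ∧
      (∀ t ∈ F, t ≠ t₁ → c t = c' t) ∧ 0 < N (k₁ • (c t₁ - c' t₁))

/-- requirements on the target group -/
structure Target : Prop where
  divisible : ∀ n : ℤ, n ≠ 0 → ∀ a : K, ∃ b : K, n • b = a
  cogen : ∀ n : ℕ, n ≠ 1 → ∃ a : K, n • a = 0 ∧ ∀ l : ℤ, ¬ (n : ℤ) ∣ l → 0 < N (l • a)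

variable {N}

theorem Target.baer (hT : Target N) : Module.Baer ℤ K := by
  classical
  let _ : DivisibleBy K ℤ := divisibleByOfSMulRightSurj K ℤ
    (fun {n} hn a => hT.divisible n hn a)
  exact Module.Baer.of_divisible K

variable {G : Type u} [AddCommGroup G]

theorem Target.exists_hom (hT : Target N) (Γ : AddSubgroup (G × K))
    (h : ∀ k, ((0 : G), k) ∈ Γ → k = 0) : ∃ ψ : G →+ K, ∀ y k, (y, k) ∈ Γ → ψ y = k := by
  obtain ⟨ψ, hψ⟩ := hT.baer.extension_property_addMonoidHom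
    ((AddMonoidHom.fst G K).comp Γ.subtype) (by
      rw [injective_iff_map_eq_zero]
      rintro ⟨⟨y, k⟩, hyk⟩ h0
      have hy : y = 0 := h0
      subst hy
      have := h k hyk
      subst this
      rfl) ((AddMonoidHom.snd G K).comp Γ.subtype)
  refine ⟨ψ, fun y k hyk => ?_⟩
  have := DFunLike.congr_fun hψ ⟨(y, k), hyk⟩
  exact this

theorem Target.exists_hom' (hT : Target N) {M : Type*} [AddCommGroup M] (θ : M →+ G) (η : M →+ K)
    (h : ∀ m, θ m = 0 → η m = 0) : ∃ ψ : G →+ K, ∀ m, ψ (θ m) = η m := by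
  obtain ⟨ψ, hψ⟩ := hT.exists_hom (θ.prod η).range (by
    rintro k ⟨m, hm⟩
    have h1 : θ m = 0 := congrArg Prod.fst hm
    have h2 : η m = k := congrArg Prod.snd hm
    rw [← h2]
    exact h m h1)
  exact ⟨ψ, fun m => hψ _ _ ⟨m, rfl⟩⟩

/-- points are separated from subgroups -/
theorem Target.exists_sep (hT : Target N) (H : AddSubgroup G) (y : G) (hy : y ∉ H) :
    ∃ ψ : G →+ K, (∀ h ∈ H, ψ h = 0) ∧ 0 < N (ψ y) := by
  -- the order of `y` modulo `H`
  obtain ⟨n, hn⟩ : ∃ n : ℕ, ∀ l : ℤ, l • y ∈ H ↔ (n : ℤ) ∣ l := by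
    let S : AddSubgroup ℤ := H.comap (zmultiplesHom G y)
    obtain ⟨a, ha⟩ := Int.subgroup_cyclic S
    refine ⟨a.natAbs, fun l => ?_⟩
    have h1 : l • y ∈ H ↔ l ∈ S := by
      simp [S, AddSubgroup.mem_comap]
    rw [h1, ha, AddSubgroup.mem_closure_singleton, Int.natCast_natAbs, abs_dvd]
    constructor
    · rintro ⟨z, rfl⟩
      simp
    · rintro ⟨z, rfl⟩
      exact ⟨z, by simp [mul_comm]⟩
  have hn1 : n ≠ 1 := by
    rintro rfl
    exact hy (by simpa using (hn 1).2 (by simp))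
  obtain ⟨a, ha, hN⟩ := hT.cogen n hn1
  obtain ⟨ψ, hψ⟩ := hT.exists_hom' (M := H × ℤ)
    ((H.subtype.comp (AddMonoidHom.fst _ _)) + (zmultiplesHom G y).comp (AddMonoidHom.snd _ _))
    ((zmultiplesHom K a).comp (AddMonoidHom.snd _ _)) (by
      rintro ⟨h, l⟩ h0
      have h1 : (h : G) + l • y = 0 := h0
      have h2 : l • y ∈ H := by
        have : l • y = -(h : G) := (eq_neg_of_add_eq_zero_right h1)
        rw [this]
        exact H.neg_mem h.2
      obtain ⟨z, rfl⟩ := (hn l).1 h2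
      change ((n : ℤ) * z) • a = 0
      rw [mul_comm, mul_smul, natCast_zsmul, ha, smul_zero])
  refine ⟨ψ, fun h hh => ?_, ?_⟩
  · have := hψ (⟨h, hh⟩, 0)
    simpa using this
  · have := hψ (0, 1)
    have h2 : ψ y = a := by simpa using this
    rw [h2]
    have := hN 1 (by
      intro h
      apply hn1
      exact_mod_cast Int.eq_one_of_dvd_one (by positivity) h)
    simpa using this

/-! ### The chain of subgroups -/

variable {A : Type w} [LinearOrder A] (g : A → G) (x : A → Iu → G) (m : A → Iu → ℕ)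

/-- subgroup generated by the endpoints and path points with index in `S` -/
def Gs (S : Set A) : AddSubgroup G :=
  AddSubgroup.closure ({y | ∃ b ∈ S, y = g b} ∪ {y | ∃ b ∈ S, ∃ t, y = x b t})

/-- subgroup generated by the endpoints with index `≤ a` and the path points with
index `< a` -/
def Hs (a : A) : AddSubgroup G :=
  AddSubgroup.closure ({y | ∃ b ≤ a, y = g b} ∪ {y | ∃ b < a, ∃ t, y = x b t})

/-- the path points with index `a` are independent over `Hs a`. -/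
def Ind : Prop :=
  ∀ a, ∀ k : Iu →₀ ℤ, (k.sum fun t n => n • x a t) ∈ Hs g x a → ∀ t, (m a t : ℤ) ∣ k t

variable (N)

/-- admissible homomorphisms -/
def Adm (S : Set A) (φ : G →+ K) : Prop :=
  ∀ a ∈ S, GoodPath N (m a) (φ (g a)) (fun t => φ (x a t))

variable {N} {g x m}

theorem Gs_mono {S S' : Set A} (h : S ⊆ S') : Gs g x S ≤ Gs g x S' := by
  apply AddSubgroup.closure_mono
  rintro y (⟨b, hb, rfl⟩ | ⟨b, hb, t, rfl⟩)
  · exact Or.inl ⟨b, h hb, rfl⟩
  · exact Or.inr ⟨b, h hb, t, rfl⟩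

theorem g_mem_Gs {S : Set A} {a : A} (h : a ∈ S) : g a ∈ Gs g x S :=
  AddSubgroup.subset_closure (Or.inl ⟨a, h, rfl⟩)

theorem x_mem_Gs {S : Set A} {a : A} (h : a ∈ S) (t : Iu) : x a t ∈ Gs g x S :=
  AddSubgroup.subset_closure (Or.inr ⟨a, h, t, rfl⟩)

theorem Gs_le_Hs (a : A) : Gs g x (Iio a) ≤ Hs g x a := by
  apply AddSubgroup.closure_mono
  rintro y (⟨b, hb, rfl⟩ | ⟨b, hb, t, rfl⟩)
  · exact Or.inl ⟨b, le_of_lt hb, rfl⟩
  · exact Or.inr ⟨b, hb, t, rfl⟩

theorem Hs_le_Gs (a : A) : Hs g x a ≤ Gs g x (Iic a) := by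
  apply AddSubgroup.closure_mono
  rintro y (⟨b, hb, rfl⟩ | ⟨b, hb, t, rfl⟩)
  · exact Or.inl ⟨b, hb, rfl⟩
  · exact Or.inr ⟨b, le_of_lt hb, t, rfl⟩

theorem g_mem_Hs (a : A) : g a ∈ Hs g x a :=
  AddSubgroup.subset_closure (Or.inl ⟨a, le_rfl, rfl⟩)

/-- elements of `Gs (Iic a)` are sums of an element of `Hs a` and a combination of the
path points with index `a` -/
theorem exists_of_mem_Gs_Iic {a : A} {y : G} (hy : y ∈ Gs g x (Iic a)) :
    ∃ h ∈ Hs g x a, ∃ k : Iu →₀ ℤ, y = h + k.sum fun t n => n • x a t := by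
  classical
  unfold Gs at hy
  induction hy using AddSubgroup.closure_induction with
  | mem y hy =>
    rcases hy with ⟨b, hb, rfl⟩ | ⟨b, hb, t, rfl⟩
    · exact ⟨g b, AddSubgroup.subset_closure (Or.inl ⟨b, hb, rfl⟩), 0, by simp⟩
    · rcases (show b ≤ a from hb).eq_or_lt with h | h
      · subst h
        exact ⟨0, zero_mem _, Finsupp.single t 1, by simp⟩
      · exact ⟨x b t, AddSubgroup.subset_closure (Or.inr ⟨b, h, t, rfl⟩), 0, by simp⟩
  | zero => exact ⟨0, zero_mem _, 0, by simp⟩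
  | add y z _ _ hy hz =>
    obtain ⟨h, hh, k, rfl⟩ := hy
    obtain ⟨h', hh', k', rfl⟩ := hz
    refine ⟨h + h', add_mem hh hh', k + k', ?_⟩
    rw [Finsupp.sum_add_index' (by simp) (by intros; rw [add_smul])]
    abel
  | neg y _ hy =>
    obtain ⟨h, hh, k, rfl⟩ := hy
    refine ⟨-h, neg_mem hh, -k, ?_⟩
    rw [Finsupp.sum_neg_index (by simp), neg_add, Finsupp.sum, Finsupp.sum, ← Finset.sum_neg_distrib]
    congr 1
    exact Finset.sum_congr rfl fun t _ => by rw [neg_smul]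

/-- finite character -/
theorem mem_Gs_Iio {a : A} {y : G} (hy : y ∈ Gs g x (Iio a)) :
    y = 0 ∨ ∃ b < a, y ∈ Gs g x (Iic b) := by
  unfold Gs at hy
  induction hy using AddSubgroup.closure_induction with
  | mem y hy =>
    rcases hy with ⟨b, hb, rfl⟩ | ⟨b, hb, t, rfl⟩
    · exact Or.inr ⟨b, hb, g_mem_Gs (S := Iic b) (mem_Iic.2 le_rfl)⟩
    · exact Or.inr ⟨b, hb, x_mem_Gs (S := Iic b) (mem_Iic.2 le_rfl) t⟩
  | zero => exact Or.inl rfl
  | add y z _ _ hy hz =>
    rcases hy with rfl | ⟨b, hb, hy⟩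
    · rcases hz with rfl | ⟨c, hc, hz⟩
      · left; simp
      · right; exact ⟨c, hc, by simpa using hz⟩
    · rcases hz with rfl | ⟨c, hc, hz⟩
      · right; exact ⟨b, hb, by simpa using hy⟩
      · right
        refine ⟨max b c, max_lt hb hc, add_mem ?_ ?_⟩
        · exact Gs_mono (Iic_subset_Iic.2 (le_max_left _ _)) hy
        · exact Gs_mono (Iic_subset_Iic.2 (le_max_right _ _)) hz
  | neg y _ hy =>
    rcases hy with rfl | ⟨b, hb, hy⟩
    · left; simp
    · right; exact ⟨b, hb, neg_mem hy⟩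

theorem Adm.congr {S S' : Set A} (hS : S ⊆ S') {φ ψ : G →+ K} (h : Adm N g x m S φ)
    (h' : ∀ y ∈ Gs g x S', φ y = ψ y) : Adm N g x m S ψ := by
  intro a ha
  have h1 := h a ha
  rw [h' _ (g_mem_Gs (hS ha))] at h1
  have h2 : (fun t => φ (x a t)) = (fun t => ψ (x a t)) := by
    funext t
    exact h' _ (x_mem_Gs (hS ha) t)
  rwa [h2] at h1

/-- one step with a prescribed path -/
theorem one_step (hT : Target N) (hm : ∀ a t, m a t • x a t = 0) (hInd : Ind g x m) (a : A)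
    (ψ : G →+ K) (hψ : Adm N g x m (Iio a) ψ) (c : Iu → K) (hc : GoodPath N (m a) (ψ (g a)) c) :
    ∃ ψ' : G →+ K, Adm N g x m (Iic a) ψ' ∧ (∀ h ∈ Hs g x a, ψ' h = ψ h) ∧
      (∀ t, ψ' (x a t) = c t) := by
  classical
  let L : (Iu →₀ ℤ) →+ G := Finsupp.liftAddHom (fun t => (zmultiplesHom G (x a t)))
  let L' : (Iu →₀ ℤ) →+ K := Finsupp.liftAddHom (fun t => (zmultiplesHom K (c t)))
  have hL : ∀ k, L k = k.sum fun t n => n • x a t := fun k => rfl
  have hL' : ∀ k, L' k = k.sum fun t n => n • c t := fun k => rfl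
  obtain ⟨ψ', hψ'⟩ := hT.exists_hom' (M := Hs g x a × (Iu →₀ ℤ))
    (((Hs g x a).subtype.comp (AddMonoidHom.fst _ _)) + L.comp (AddMonoidHom.snd _ _))
    ((ψ.comp ((Hs g x a).subtype.comp (AddMonoidHom.fst _ _))) + L'.comp (AddMonoidHom.snd _ _)) (by
      rintro ⟨h, k⟩ h0
      have h1 : (h : G) + L k = 0 := h0
      have h2 : L k ∈ Hs g x a := by
        rw [eq_neg_of_add_eq_zero_right h1]
        exact (Hs g x a).neg_mem h.2
      rw [hL] at h2
      have h3 := hInd a k h2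
      have h4 : L k = 0 := by
        rw [hL]
        refine Finset.sum_eq_zero fun t _ => ?_
        obtain ⟨z, hz⟩ := h3 t
        change k t • x a t = 0
        rw [hz, mul_comm, mul_smul, natCast_zsmul, hm, smul_zero]
      have h5 : L' k = 0 := by
        rw [hL']
        refine Finset.sum_eq_zero fun t _ => ?_
        obtain ⟨z, hz⟩ := h3 t
        change k t • c t = 0
        rw [hz, mul_comm, mul_smul, natCast_zsmul, hc.ord, smul_zero]
      have h6 : (h : G) = 0 := by rw [h4, add_zero] at h1; exact h1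
      change ψ (h : G) + L' k = 0
      rw [h6, h5, map_zero, add_zero])
  have hH : ∀ h ∈ Hs g x a, ψ' h = ψ h := by
    intro h hh
    have := hψ' (⟨h, hh⟩, 0)
    simpa using this
  have hX : ∀ t, ψ' (x a t) = c t := by
    intro t
    have := hψ' (0, Finsupp.single t 1)
    simpa [hL, hL'] using this
  refine ⟨ψ', ?_, hH, hX⟩
  intro b hb
  rcases (show b ≤ a from hb).eq_or_lt with h | h
  · subst h
    have : (fun t => ψ' (x b t)) = c := funext hX
    rw [this, hH _ (g_mem_Hs b)]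
    exact hc
  · have h1 : Adm N g x m (Iio a) ψ' := by
      refine hψ.congr Subset.rfl fun y hy => (hH y (Gs_le_Hs a hy)).symm
    exact h1 b h

/-- Zorn: extension of admissible homomorphisms. -/
theorem exists_extension [WellFoundedLT A] (hT : Target N) (hm : ∀ a t, m a t • x a t = 0)
    (hInd : Ind g x m) (hreach : ∀ a (φ : G →+ K), ∃ c, GoodPath N (m a) (φ (g a)) c)
    (S₀ : Set A) (hS₀ : IsLowerSet S₀) (ψ₀ : G →+ K) (h₀ : Adm N g x m S₀ ψ₀) :
    ∃ φ : G →+ K, Adm N g x m univ φ ∧ ∀ y ∈ Gs g x S₀, φ y = ψ₀ y := by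
  classical
  let P := {p : Set A × (G →+ K) // IsLowerSet p.1 ∧ Adm N g x m p.1 p.2 ∧ S₀ ⊆ p.1 ∧
    ∀ y ∈ Gs g x S₀, p.2 y = ψ₀ y}
  let r : P → P → Prop := fun p q => p.1.1 ⊆ q.1.1 ∧ ∀ y ∈ Gs g x p.1.1, p.1.2 y = q.1.2 y
  let p₀ : P := ⟨(S₀, ψ₀), hS₀, h₀, Subset.rfl, fun _ _ => rfl⟩
  obtain ⟨p, hp⟩ := exists_maximal_of_chains_bounded (r := r) (by
    intro C hC
    rcases C.eq_empty_or_nonempty with rfl | ⟨q₀, hq₀⟩
    · exact ⟨p₀, by simp⟩
    -- the union
    let S : Set A := ⋃ q ∈ C, q.1.1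
    have hmemS : ∀ a, a ∈ S ↔ ∃ q ∈ C, a ∈ q.1.1 := by
      intro a; simp [S]
    have hrefl : ∀ q : P, r q q := fun q => ⟨Subset.rfl, fun _ _ => rfl⟩
    have hdir : ∀ q ∈ C, ∀ q' ∈ C, ∃ q'' ∈ C, r q q'' ∧ r q' q'' := by
      intro q hq q' hq'
      by_cases hqq : q = q'
      · subst hqq
        exact ⟨q, hq, hrefl q, hrefl q⟩
      rcases hC hq hq' hqq with h | h
      · exact ⟨q', hq', h, hrefl q'⟩
      · exact ⟨q, hq, hrefl q, h⟩
    -- graph
    let Γ : AddSubgroup (G × K) :=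
      { carrier := {z | ∃ q ∈ C, z.1 ∈ Gs g x q.1.1 ∧ q.1.2 z.1 = z.2}
        zero_mem' := ⟨q₀, hq₀, zero_mem _, by simp⟩
        add_mem' := by
          rintro z z' ⟨q, hq, h1, h2⟩ ⟨q', hq', h1', h2'⟩
          obtain ⟨q'', hq'', h3, h4⟩ := hdir q hq q' hq'
          refine ⟨q'', hq'', add_mem (Gs_mono h3.1 h1) (Gs_mono h4.1 h1'), ?_⟩
          rw [Prod.fst_add, map_add, ← h3.2 _ h1, ← h4.2 _ h1', h2, h2', Prod.snd_add]
        neg_mem' := by
          rintro z ⟨q, hq, h1, h2⟩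
          refine ⟨q, hq, neg_mem h1, ?_⟩
          rw [Prod.fst_neg, map_neg, h2, Prod.snd_neg] }
    obtain ⟨ψ, hψ⟩ := hT.exists_hom Γ (by
      rintro k ⟨q, hq, h1, h2⟩
      simpa using h2.symm)
    have hagree : ∀ q ∈ C, ∀ y ∈ Gs g x q.1.1, q.1.2 y = ψ y := by
      intro q hq y hy
      exact (hψ y (q.1.2 y) ⟨q, hq, hy, rfl⟩).symm
    refine ⟨⟨(S, ψ), ?_, ?_, ?_, ?_⟩, ?_⟩
    · intro a b hba ha
      obtain ⟨q, hq, h⟩ := (hmemS a).1 ha
      exact (hmemS b).2 ⟨q, hq, q.2.1 hba h⟩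
    · intro a ha
      obtain ⟨q, hq, h⟩ := (hmemS a).1 ha
      exact (q.2.2.1.congr Subset.rfl (hagree q hq)) a h
    · intro a ha
      exact (hmemS a).2 ⟨q₀, hq₀, q₀.2.2.2.1 ha⟩
    · intro y hy
      rw [← q₀.2.2.2.2 y hy]
      exact (hagree q₀ hq₀ y (Gs_mono q₀.2.2.2.1 hy)).symm
    · intro q hq
      exact ⟨fun a ha => (hmemS a).2 ⟨q, hq, ha⟩, hagree q hq⟩)
    (by
      rintro p q s ⟨h1, h2⟩ ⟨h3, h4⟩
      exact ⟨h1.trans h3, fun y hy => (h2 y hy).trans (h4 y (Gs_mono h1 hy))⟩)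
  obtain ⟨⟨S, ψ⟩, hlow, hadm, hS₀S, heq⟩ := p
  have hS : S = univ := by
    by_contra hne
    have hne' : (Sᶜ).Nonempty := by
      rw [nonempty_compl]; exact hne
    obtain ⟨a, ha, hmin⟩ : ∃ a, a ∈ Sᶜ ∧ ∀ b ∈ Sᶜ, ¬ b < a :=
      ⟨WellFounded.min (wellFounded_lt (α := A)) Sᶜ hne',
        WellFounded.min_mem (wellFounded_lt (α := A)) Sᶜ hne',
        fun b hb => WellFounded.not_lt_min (wellFounded_lt (α := A)) Sᶜ hb⟩
    have hSa : S = Iio a := by
      ext b
      constructor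
      · intro hb
        by_contra h
        exact ha (hlow (not_lt.1 h) hb)
      · intro hb
        by_contra h
        exact hmin b h hb
    subst hSa
    obtain ⟨c, hc⟩ := hreach a ψ
    obtain ⟨ψ', h1, h2, h3⟩ := one_step hT hm hInd a ψ hadm c hc
    have hsub : Iio a ⊆ Iic a := Iio_subset_Iic_self
    have := hp ⟨(Iic a, ψ'), isLowerSet_Iic a, h1, hS₀S.trans hsub, fun y hy => by
      rw [← heq y hy]
      exact h2 y (Gs_le_Hs a (Gs_mono hS₀S hy))⟩
      ⟨hsub, fun y hy => (h2 y (Gs_le_Hs a hy)).symm⟩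
    exact absurd (this.1 (mem_Iic.2 (le_refl a))) (lt_irrefl a)
  subst hS
  exact ⟨ψ, hadm, heq⟩

/-- admissible homomorphisms separate points. -/
theorem exists_adm_ne [WellFoundedLT A] (hT : Target N) {e : ℕ} (he : ∀ y : G, e • y = 0)
    (hm : ∀ a t, m a t • x a t = 0) (hInd : Ind g x m) (hreach : ∀ a, Reach N e (m a))
    (hg0 : ∀ a, g a ≠ 0) :
    ∀ a : A, ∀ y ∈ Gs g x (Iic a), y ≠ 0 → ∃ φ : G →+ K, Adm N g x m univ φ ∧ 0 < N (φ y) := by
  classical
  have he' : ∀ (φ : G →+ K) (y : G), e • φ y = 0 := by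
    intro φ y
    rw [← map_nsmul, he, map_zero]
  have hpath : ∀ a (φ : G →+ K), ∃ c, GoodPath N (m a) (φ (g a)) c := fun a φ =>
    (hreach a).exists_path _ (he' φ (g a))
  intro a
  induction a using WellFoundedLT.induction with
  | ind a ih =>
    intro y hy hy0
    by_cases hyG : y ∈ Gs g x (Iio a)
    · rcases mem_Gs_Iio hyG with h | ⟨b, hb, hyb⟩
      · exact absurd h hy0
      · exact ih b hb y hyb hy0
    -- zero is admissible
    have hzero : ∀ ψ : G →+ K, (∀ h ∈ Gs g x (Iio a), ψ h = 0) → Adm N g x m (Iio a) ψ := by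
      intro ψ hψ b hb
      have h1 : ψ (g b) = 0 := hψ _ (g_mem_Gs hb)
      have h2 : (fun t => ψ (x b t)) = fun _ => 0 := funext fun t => hψ _ (x_mem_Gs hb t)
      rw [h1, h2]
      have h3 : ∀ t, ext (0 : K) (fun _ => 0) t = 0 := by
        intro t
        unfold ext
        split_ifs <;> rfl
      refine ⟨fun t₀ _ => ?_, fun t => smul_zero _, fun t => by simp⟩
      simp only [h3, sub_zero, map_zero]
      exact tendsto_const_nhds
    -- extension from a
    have hext : ∀ (ψ : G →+ K), Adm N g x m (Iio a) ψ → ∀ c, GoodPath N (m a) (ψ (g a)) c →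
        ∃ φ : G →+ K, Adm N g x m univ φ ∧ (∀ h ∈ Hs g x a, φ h = ψ h) ∧
          (∀ t, φ (x a t) = c t) := by
      intro ψ hψ c hc
      obtain ⟨ψ', h1, h2, h3⟩ := one_step hT hm hInd a ψ hψ c hc
      obtain ⟨φ, h4, h5⟩ := exists_extension hT hm hInd hpath (Iic a) (isLowerSet_Iic a) ψ' h1
      refine ⟨φ, h4, fun h hh => ?_, fun t => ?_⟩
      · rw [h5 h (Hs_le_Gs a hh), h2 h hh]
      · rw [h5 _ (x_mem_Gs (S := Iic a) (mem_Iic.2 le_rfl) t), h3]
    by_cases hyH : y ∈ Hs g x a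
    · obtain ⟨ψ, h1, h2⟩ := hT.exists_sep (Gs g x (Iio a)) y hyG
      obtain ⟨c, hc⟩ := hpath a ψ
      obtain ⟨φ, h3, h4, -⟩ := hext ψ (hzero ψ h1) c hc
      exact ⟨φ, h3, by rw [h4 y hyH]; exact h2⟩
    -- the main case
    obtain ⟨h, hh, k, rfl⟩ := exists_of_mem_Gs_Iic hy
    obtain ⟨t₁, ht₁⟩ : ∃ t, ¬ (m a t : ℤ) ∣ k t := by
      by_contra hcon
      push Not at hcon
      apply hyH
      have : (k.sum fun t n => n • x a t) = 0 := by
        refine Finset.sum_eq_zero fun t _ => ?_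
        obtain ⟨z, hz⟩ := hcon t
        change k t • x a t = 0
        rw [hz, mul_comm, mul_smul, natCast_zsmul, hm, smul_zero]
      rw [this, add_zero]
      exact hh
    obtain ⟨ψ, hψ, hψg⟩ : ∃ ψ : G →+ K, Adm N g x m (Iio a) ψ ∧ 0 < N (ψ (g a)) := by
      by_cases hga : g a ∈ Gs g x (Iio a)
      · rcases mem_Gs_Iio hga with h | ⟨b, hb, hgb⟩
        · exact absurd h (hg0 a)
        · obtain ⟨φ, h1, h2⟩ := ih b hb _ hgb (hg0 a)
          exact ⟨φ, fun c _ => h1 c (mem_univ c), h2⟩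
      · obtain ⟨ψ, h1, h2⟩ := hT.exists_sep (Gs g x (Iio a)) (g a) hga
        exact ⟨ψ, hzero ψ h1, h2⟩
    obtain ⟨c, c', hc, hc', hcc', hN⟩ := (hreach a).exists_two _ (he' ψ (g a)) hψg t₁ k.support
      (k t₁) ht₁
    obtain ⟨φ, h1, h2, h3⟩ := hext ψ hψ c hc
    obtain ⟨φ', h1', h2', h3'⟩ := hext ψ hψ c' hc'
    have hval : ∀ φ : G →+ K, φ (h + k.sum fun t n => n • x a t) =
        φ h + ∑ t ∈ k.support, k t • φ (x a t) := by
      intro φ
      rw [map_add, Finsupp.sum, map_sum]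
      congr 1
      exact Finset.sum_congr rfl fun t _ => by rw [map_zsmul]
    have hdiff : φ (h + k.sum fun t n => n • x a t) - φ' (h + k.sum fun t n => n • x a t) =
        k t₁ • (c t₁ - c' t₁) := by
      rw [hval, hval, h2 h hh, h2' h hh, add_sub_add_left_eq_sub, ← Finset.sum_sub_distrib]
      rw [Finset.sum_eq_single t₁]
      · rw [h3, h3', smul_sub]
      · intro t ht hne
        rw [h3, h3', hcc' t ht hne, sub_self]
      · intro ht
        have : k t₁ = 0 := by simpa using ht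
        rw [this]
        simp
    by_contra hcon
    push Not at hcon
    have h4 := hcon φ h1
    have h5 := hcon φ' h1'
    have h6 : N (k t₁ • (c t₁ - c' t₁)) ≤ 0 := by
      rw [← hdiff]
      calc N (φ (h + k.sum fun t n => n • x a t) - φ' (h + k.sum fun t n => n • x a t))
          ≤ N (φ (h + k.sum fun t n => n • x a t)) + N (φ' (h + k.sum fun t n => n • x a t)) :=
            map_sub_le_add _ _ _
        _ ≤ 0 := by linarith
    exact absurd hN (not_lt.2 h6)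

end Machine

end Pool.Agent.H66
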