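import Mathlib
import Pool.Agent.H66.Machine

/-! The target group of measurable circle valued functions (used for `MP_451483_gt`). -/

open Set Filter Topology MeasureTheory

namespace Pool.Agent.H66

/-- the circle -/
abbrev TT : Type := UnitAddCircle

/-- the representative in `(-1/2, 1/2]` -/
noncomputable def lft (y : TT) : ℝ := (AddCircle.equivIoc (1 : ℝ) (-1 / 2) y : ℝ)

theorem coe_lft (y : TT) : ((lft y : ℝ) : TT) = y :=
  (AddCircle.equivIoc (1 : ℝ) (-1 / 2)).symm_apply_apply y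

theorem measurable_lft : Measurable lft :=
  measurable_subtype_coe.comp (AddCircle.measurableEquivIoc (1 : ℝ) (-1 / 2)).measurable

theorem lft_mem (y : TT) : -1 / 2 < lft y ∧ lft y ≤ 1 / 2 := by
  have := (AddCircle.equivIoc (1 : ℝ) (-1 / 2) y).2
  refine ⟨this.1, this.2.trans (by norm_num)⟩

theorem abs_lft_le (y : TT) : |lft y| ≤ 1 / 2 := by
  have := lft_mem y
  rw [abs_le]
  constructor <;> linarith [this.1, this.2]

theorem norm_eq_abs_lft (y : TT) : ‖y‖ = |lft y| := by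
  have h := (AddCircle.norm_coe_eq_abs_iff (p := (1 : ℝ)) (x := lft y) one_ne_zero).2 (by
    simpa using abs_lft_le y)
  rw [coe_lft] at h
  exact h

theorem norm_coe_le (r : ℝ) : ‖(r : TT)‖ ≤ |r| := by
  rw [UnitAddCircle.norm_eq]
  simpa using round_le r 0

theorem norm_le_half (y : TT) : ‖y‖ ≤ 1 / 2 := by
  rw [norm_eq_abs_lft]
  exact abs_lft_le y

theorem intervalIntegrable_of_bdd {h : ℝ → ℝ} (hm : Measurable h) {C : ℝ} (hC : ∀ x, |h x| ≤ C)
    (a b : ℝ) : IntervalIntegrable h volume a b := by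
  refine (intervalIntegrable_const (c := C)).mono_fun hm.aestronglyMeasurable ?_
  refine Eventually.of_forall fun x => ?_
  change ‖h x‖ ≤ ‖C‖
  rw [Real.norm_eq_abs, Real.norm_eq_abs]
  exact (hC x).trans (le_abs_self C)

/-- measurable functions from the reals to the circle -/
def KM : AddSubgroup (ℝ → TT) where
  carrier := {f | Measurable f}
  zero_mem' := measurable_const
  add_mem' := fun hf hg => Measurable.add hf hg
  neg_mem' := fun hf => Measurable.neg hf

theorem KM.meas (f : KM) : Measurable f.1 := f.2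

theorem norm_intervalIntegrable {f : ℝ → TT} (hf : Measurable f) (a b : ℝ) :
    IntervalIntegrable (fun x => ‖f x‖) volume a b :=
  intervalIntegrable_of_bdd hf.norm (C := 1 / 2) (fun x => by
    rw [abs_norm]; exact norm_le_half _) a b

/-- the seminorm `∫₀¹ ‖f x‖ dx` -/
noncomputable def NM : AddGroupSeminorm KM where
  toFun f := ∫ x in (0 : ℝ)..1, ‖f.1 x‖
  map_zero' := by simp
  add_le' f g := by
    rw [← intervalIntegral.integral_add (norm_intervalIntegrable f.2 0 1)
      (norm_intervalIntegrable g.2 0 1)]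
    exact intervalIntegral.integral_mono_on zero_le_one
      (norm_intervalIntegrable (f + g).2 0 1)
      ((norm_intervalIntegrable f.2 0 1).add (norm_intervalIntegrable g.2 0 1))
      (fun x _ => norm_add_le _ _)
  neg' f := by simp

theorem NM_apply (f : KM) : NM f = ∫ x in (0 : ℝ)..1, ‖f.1 x‖ := rfl

theorem NM_const (y : TT) : NM ⟨fun _ => y, measurable_const⟩ = ‖y‖ := by
  rw [NM_apply]
  simp

theorem target : Target NM := by
  refine ⟨?_, ?_⟩
  · intro n hn f
    refine ⟨⟨fun x => ((lft (f.1 x) / n : ℝ) : TT), ?_⟩, ?_⟩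
    · exact AddCircle.measurable_mk'.comp ((measurable_lft.comp f.2).div_const _)
    · apply Subtype.ext
      funext x
      change n • ((lft (f.1 x) / n : ℝ) : TT) = f.1 x
      rw [← AddCircle.coe_zsmul, zsmul_eq_mul, mul_div_cancel₀ _ (by exact_mod_cast hn), coe_lft]
  · intro n hn
    rcases Nat.eq_zero_or_pos n with rfl | hpos
    · refine ⟨⟨fun _ => ((√2 : ℝ) : TT), measurable_const⟩, by simp, fun l hl => ?_⟩
      have hl0 : l ≠ 0 := by
        rintro rfl
        exact hl (dvd_refl _)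
      have h1 : l • (⟨fun _ => ((√2 : ℝ) : TT), measurable_const⟩ : KM) =
          ⟨fun _ => l • ((√2 : ℝ) : TT), measurable_const⟩ := rfl
      rw [h1, NM_const, norm_pos_iff, ← AddCircle.coe_zsmul]
      intro h
      rw [AddCircle.coe_eq_zero_iff] at h
      obtain ⟨z, hz⟩ := h
      rw [zsmul_eq_mul, zsmul_eq_mul, mul_one] at hz
      have h2 : Irrational ((l : ℝ) * √2) := irrational_sqrt_two.intCast_mul hl0
      exact h2 ⟨z, by exact_mod_cast hz⟩
    · refine ⟨⟨fun _ => ((1 / n : ℝ) : TT), measurable_const⟩, ?_, fun l hl => ?_⟩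
      · apply Subtype.ext
        funext x
        change n • ((1 / n : ℝ) : TT) = 0
        rw [← AddCircle.coe_nsmul, nsmul_eq_mul, mul_one_div_cancel (by exact_mod_cast hpos.ne'),
          AddCircle.coe_eq_zero_iff]
        exact ⟨1, by simp⟩
      · have h1 : l • (⟨fun _ => ((1 / n : ℝ) : TT), measurable_const⟩ : KM) =
          ⟨fun _ => l • ((1 / n : ℝ) : TT), measurable_const⟩ := rfl
        rw [h1, NM_const, norm_pos_iff, ← AddCircle.coe_zsmul]
        intro h
        rw [AddCircle.coe_eq_zero_iff] at h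
        obtain ⟨z, hz⟩ := h
        rw [zsmul_eq_mul, zsmul_eq_mul, mul_one] at hz
        apply hl
        refine ⟨z, ?_⟩
        have h3 : (n : ℝ) ≠ 0 := by exact_mod_cast hpos.ne'
        field_simp at hz
        have h4 : (l : ℝ) = n * z := by linarith
        exact_mod_cast h4

/-! ### Good paths -/

/-- the orders along a path -/
noncomputable def mord (M : ℕ → ℕ) (t : Iu) : ℕ := M ⌈1 / (1 - (t : ℝ))⌉₊

/-- a rounding procedure on the circle -/
structure Rounding (e : ℕ) (M : ℕ → ℕ) (R : ℕ → TT → TT) : Prop where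
  meas : ∀ k, Measurable (R k)
  norm : ∀ k y, ‖R k y‖ ≤ ‖y‖
  ord : ∀ k y, e • y = 0 → M k • R k y = 0
  lim : ∀ y, Tendsto (fun k => R k y) atTop (𝓝 y)

theorem chain_dvd {M : ℕ → ℕ} (hM : ∀ k, M k ∣ M (k + 1)) {i j : ℕ} (h : i ≤ j) : M i ∣ M j := by
  induction j, h using Nat.le_induction with
  | base => exact dvd_refl _
  | succ j _ ih => exact ih.trans (hM j)

/-- existence of the cutting times -/
theorem exists_tau {f : ℝ → TT} (hf : Measurable f) : ∃ τ : ℝ → ℝ, τ 0 = 0 ∧ τ 1 = 1 ∧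
    (∀ t ∈ Icc (0 : ℝ) 1, τ t ∈ Icc (0 : ℝ) 1 ∧
      ∫ x in (0 : ℝ)..τ t, ‖f x‖ = t * ∫ x in (0 : ℝ)..1, ‖f x‖) := by
  classical
  set I : ℝ := ∫ x in (0 : ℝ)..1, ‖f x‖ with hI
  have hI0 : 0 ≤ I := intervalIntegral.integral_nonneg zero_le_one fun x _ => norm_nonneg _
  have hcont : Continuous fun b : ℝ => ∫ x in (0 : ℝ)..b, ‖f x‖ :=
    intervalIntegral.continuous_primitive (norm_intervalIntegrable hf) 0
  have hex : ∀ t ∈ Icc (0 : ℝ) 1, ∃ s ∈ Icc (0 : ℝ) 1, ∫ x in (0 : ℝ)..s, ‖f x‖ = t * I := by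
    intro t ht
    have h1 : t * I ∈ Icc (∫ x in (0 : ℝ)..0, ‖f x‖) (∫ x in (0 : ℝ)..1, ‖f x‖) := by
      rw [intervalIntegral.integral_same, ← hI]
      exact ⟨mul_nonneg ht.1 hI0, mul_le_of_le_one_left hI0 ht.2⟩
    obtain ⟨s, hs, h2⟩ := intermediate_value_Icc zero_le_one hcont.continuousOn h1
    exact ⟨s, hs, h2⟩
  refine ⟨fun t => if h : t ∈ Icc (0 : ℝ) 1 then (if t = 0 then 0 else if t = 1 then 1 else
    (hex t h).choose) else 0, by simp, by simp, ?_⟩
  intro t ht
  simp only [ht, dite_true]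
  split_ifs with h0 h1
  · subst h0; simp
  · subst h1; simp [hI]
  · exact (hex t ht).choose_spec

/-- the rounded function at time `t` -/
noncomputable def rnd (R : ℕ → TT → TT) (f : ℝ → TT) (t x : ℝ) : TT :=
  if t < 1 then R ⌊1 / (1 - t) + x⌋₊ (f x) else f x

/-- the cut rounded function at time `t` -/
noncomputable def cut (R : ℕ → TT → TT) (f : ℝ → TT) (τ : ℝ → ℝ) (t x : ℝ) : TT :=
  if x ≤ τ t then rnd R f t x else 0

section

variable {e : ℕ} {M : ℕ → ℕ} {R : ℕ → TT → TT} (hR : Rounding e M R) {f : ℝ → TT}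
  (hf : Measurable f)

include hR hf

theorem measurable_rnd (t : ℝ) : Measurable (rnd R f t) := by
  unfold rnd
  by_cases h : t < 1
  · simp only [h, if_true]
    have h1 : Measurable (fun p : ℕ × TT => R p.1 p.2) :=
      measurable_from_prod_countable_right fun k => hR.meas k
    exact h1.comp ((Nat.measurable_floor.comp (measurable_const.add measurable_id)).prodMk hf)
  · simp only [h, if_false]
    exact hf

theorem norm_rnd_le (t x : ℝ) : ‖rnd R f t x‖ ≤ ‖f x‖ := by
  unfold rnd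
  split_ifs
  · exact hR.norm _ _
  · exact le_rfl

theorem measurable_cut (τ : ℝ → ℝ) (t : ℝ) : Measurable (cut R f τ t) := by
  unfold cut
  exact Measurable.ite measurableSet_Iic (measurable_rnd hR hf t) measurable_const

/-- continuity of the rounding in the mean -/
theorem tendsto_rnd {t₀ : ℝ} (ht₀ : t₀ ∈ Icc (0 : ℝ) 1) :
    Tendsto (fun t => ∫ x in (0 : ℝ)..1, ‖rnd R f t x - rnd R f t₀ x‖) (𝓝[Icc 0 1] t₀) (𝓝 0) := by
  have h0 : (∫ x in (0 : ℝ)..1, (0 : ℝ)) = 0 := by simp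
  suffices hs : Tendsto (fun t => ∫ x in (0 : ℝ)..1, ‖rnd R f t x - rnd R f t₀ x‖)
      (𝓝[Icc 0 1] t₀) (𝓝 (∫ x in (0 : ℝ)..1, (0 : ℝ))) by rwa [h0] at hs
  refine intervalIntegral.tendsto_integral_filter_of_dominated_convergence (μ := volume)
    (a := 0) (b := 1) (l := 𝓝[Icc 0 1] t₀) (F := fun t x => ‖rnd R f t x - rnd R f t₀ x‖)
    (f := fun _ => (0 : ℝ)) (fun _ => (1 : ℝ)) ?_ ?_ (intervalIntegrable_const (μ := volume)) ?_
  · exact Eventually.of_forall fun t =>
      ((measurable_rnd hR hf t).sub (measurable_rnd hR hf t₀)).norm.aestronglyMeasurable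
  · refine Eventually.of_forall fun t => Eventually.of_forall fun x _ => ?_
    rw [norm_norm]
    have := norm_sub_le (rnd R f t x) (rnd R f t₀ x)
    have h1 := norm_le_half (rnd R f t x)
    have h2 := norm_le_half (rnd R f t₀ x)
    linarith
  · have hcount : (range fun n : ℤ => (n : ℝ) - 1 / (1 - t₀)).Countable := countable_range _
    filter_upwards [hcount.ae_notMem volume] with x hx hx01
    rw [uIoc_of_le zero_le_one] at hx01
    rw [← norm_zero (E := TT)]
    refine Tendsto.norm ?_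
    rcases lt_or_eq_of_le ht₀.2 with h1 | h1
    · -- `t₀ < 1`
      have hpos : 0 < 1 / (1 - t₀) + x := by
        have : 0 < 1 - t₀ := by linarith
        have := one_div_pos.2 this
        linarith [hx01.1]
      set k := ⌊1 / (1 - t₀) + x⌋₊ with hk
      have hk1 : (k : ℝ) < 1 / (1 - t₀) + x := by
        refine lt_of_le_of_ne (Nat.floor_le hpos.le) ?_
        intro h
        apply hx
        refine ⟨(k : ℤ), ?_⟩
        push_cast
        rw [h]
        ring
      have hk2 : 1 / (1 - t₀) + x < k + 1 := Nat.lt_floor_add_one _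
      have hc : ContinuousAt (fun t : ℝ => 1 / (1 - t) + x) t₀ := by
        refine ContinuousAt.add (ContinuousAt.div continuousAt_const
          (continuousAt_const.sub continuousAt_id) (by simp; linarith)) continuousAt_const
      have hev : ∀ᶠ t in 𝓝 t₀, rnd R f t x - rnd R f t₀ x = 0 := by
        filter_upwards [hc.eventually (Ioo_mem_nhds hk1 hk2), Iio_mem_nhds h1] with t ht ht1
        have ht1 : t < 1 := ht1
        have : ⌊1 / (1 - t) + x⌋₊ = k := by
          rw [Nat.floor_eq_iff (le_trans (Nat.cast_nonneg k) ht.1.le)]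
          exact ⟨ht.1.le, ht.2⟩
        simp only [rnd, ht1, h1, if_true, this, ← hk, sub_self]
      exact (tendsto_congr' (hev.filter_mono nhdsWithin_le_nhds)).2 tendsto_const_nhds
    · -- `t₀ = 1`
      subst h1
      have h2 : rnd R f 1 x = f x := by simp [rnd]
      rw [h2, ← sub_self (f x)]
      refine Tendsto.sub ?_ tendsto_const_nhds
      rw [Metric.tendsto_nhds]
      intro ε hε
      have hlim := (Metric.tendsto_nhds.1 (hR.lim (f x))) ε hε
      rw [eventually_atTop] at hlim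
      obtain ⟨k₀, hk₀⟩ := hlim
      have hnear : ∀ᶠ t in 𝓝 (1 : ℝ), 1 - 1 / (k₀ + 1 : ℝ) < t := by
        apply lt_mem_nhds
        have : (0 : ℝ) < 1 / (k₀ + 1) := by positivity
        linarith
      filter_upwards [hnear.filter_mono nhdsWithin_le_nhds, self_mem_nhdsWithin] with t ht ht01
      by_cases ht1 : t < 1
      · simp only [rnd, ht1, if_true]
        apply hk₀
        apply Nat.le_floor
        have h3 : 0 < 1 - t := by linarith
        have h4 : 1 - t < 1 / (k₀ + 1 : ℝ) := by linarith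
        have h5 : (k₀ + 1 : ℝ) < 1 / (1 - t) := by
          rw [lt_one_div (by positivity) h3]
          exact h4
        linarith [hx01.1]
      · simp only [rnd, ht1, if_false, dist_self]
        exact hε

end

theorem integral_cut_norm {f : ℝ → TT} {s : ℝ} (hs : s ∈ Icc (0 : ℝ) 1) :
    ∫ x in (0 : ℝ)..1, (if x ≤ s then ‖f x‖ else 0) = ∫ x in (0 : ℝ)..s, ‖f x‖ := by
  rw [← intervalIntegral.integral_indicator hs]
  rfl

theorem intervalIntegrable_cut_norm {f : ℝ → TT} (hf : Measurable f) (s a b : ℝ) :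
    IntervalIntegrable (fun x => if x ≤ s then ‖f x‖ else 0) volume a b := by
  refine intervalIntegrable_of_bdd (Measurable.ite measurableSet_Iic hf.norm measurable_const)
    (C := 1 / 2) (fun x => ?_) a b
  split_ifs
  · rw [abs_norm]; exact norm_le_half _
  · simp

/-- the estimate for the continuity of the cut functions -/
theorem cut_estimate {e : ℕ} {M : ℕ → ℕ} {R : ℕ → TT → TT} (hR : Rounding e M R) {f : ℝ → TT}
    (hf : Measurable f) {τ : ℝ → ℝ} {t t₀ : ℝ} (ht : t ∈ Icc (0 : ℝ) 1) (ht₀ : t₀ ∈ Icc (0 : ℝ) 1)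
    (hτ : ∀ t ∈ Icc (0 : ℝ) 1, τ t ∈ Icc (0 : ℝ) 1 ∧
      ∫ x in (0 : ℝ)..τ t, ‖f x‖ = t * ∫ x in (0 : ℝ)..1, ‖f x‖) :
    ∫ x in (0 : ℝ)..1, ‖cut R f τ t x - cut R f τ t₀ x‖ ≤
      (∫ x in (0 : ℝ)..1, ‖rnd R f t x - rnd R f t₀ x‖) +
        |t - t₀| * ∫ x in (0 : ℝ)..1, ‖f x‖ := by
  set I : ℝ := ∫ x in (0 : ℝ)..1, ‖f x‖ with hI
  have hI0 : 0 ≤ I := intervalIntegral.integral_nonneg zero_le_one fun x _ => norm_nonneg _
  have hint1 : IntervalIntegrable (fun x => ‖rnd R f t x - rnd R f t₀ x‖) volume 0 1 :=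
    norm_intervalIntegrable (((measurable_rnd hR hf t).sub (measurable_rnd hR hf t₀))) 0 1
  have hint2 : IntervalIntegrable (fun x => ‖cut R f τ t x - cut R f τ t₀ x‖) volume 0 1 :=
    norm_intervalIntegrable (((measurable_cut hR hf τ t).sub (measurable_cut hR hf τ t₀))) 0 1
  have hmax : max (τ t) (τ t₀) ∈ Icc (0 : ℝ) 1 :=
    ⟨le_max_of_le_left (hτ t ht).1.1, max_le (hτ t ht).1.2 (hτ t₀ ht₀).1.2⟩
  have hmin : min (τ t) (τ t₀) ∈ Icc (0 : ℝ) 1 :=
    ⟨le_min (hτ t ht).1.1 (hτ t₀ ht₀).1.1, min_le_of_left_le (hτ t ht).1.2⟩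
  have hpt : ∀ x ∈ Icc (0 : ℝ) 1, ‖cut R f τ t x - cut R f τ t₀ x‖ ≤
      ‖rnd R f t x - rnd R f t₀ x‖ + ((if x ≤ max (τ t) (τ t₀) then ‖f x‖ else 0) -
        (if x ≤ min (τ t) (τ t₀) then ‖f x‖ else 0)) := by
    intro x _
    have h1 := norm_rnd_le hR hf t x
    have h2 := norm_rnd_le hR hf t₀ x
    have h3 := norm_nonneg (rnd R f t x - rnd R f t₀ x)
    unfold cut
    by_cases ha : x ≤ τ t <;> by_cases hb : x ≤ τ t₀
    · simp [ha, hb]
    · simp only [ha, hb, if_true, if_false, sub_zero, le_max_iff, le_min_iff, true_or, and_false]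
      linarith
    · simp only [ha, hb, if_true, if_false, zero_sub, norm_neg, le_max_iff, le_min_iff, or_true,
        false_and, sub_zero]
      linarith
    · simp [ha, hb]
  have hF : (∫ x in (0 : ℝ)..1, (if x ≤ max (τ t) (τ t₀) then ‖f x‖ else 0)) -
      (∫ x in (0 : ℝ)..1, (if x ≤ min (τ t) (τ t₀) then ‖f x‖ else 0)) ≤ |t - t₀| * I := by
    rw [integral_cut_norm hmax, integral_cut_norm hmin]
    rcases le_total (τ t) (τ t₀) with h | h
    · rw [max_eq_right h, min_eq_left h, (hτ t ht).2, (hτ t₀ ht₀).2, ← sub_mul]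
      apply mul_le_mul_of_nonneg_right _ hI0
      rw [abs_sub_comm]
      exact le_abs_self _
    · rw [max_eq_left h, min_eq_right h, (hτ t ht).2, (hτ t₀ ht₀).2, ← sub_mul]
      exact mul_le_mul_of_nonneg_right (le_abs_self _) hI0
  calc ∫ x in (0 : ℝ)..1, ‖cut R f τ t x - cut R f τ t₀ x‖
      ≤ ∫ x in (0 : ℝ)..1, (‖rnd R f t x - rnd R f t₀ x‖ +
          ((if x ≤ max (τ t) (τ t₀) then ‖f x‖ else 0) -
        (if x ≤ min (τ t) (τ t₀) then ‖f x‖ else 0))) :=
        intervalIntegral.integral_mono_on zero_le_one hint2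
          (hint1.add ((intervalIntegrable_cut_norm hf _ 0 1).sub
            (intervalIntegrable_cut_norm hf _ 0 1))) hpt
    _ = (∫ x in (0 : ℝ)..1, ‖rnd R f t x - rnd R f t₀ x‖) +
          ((∫ x in (0 : ℝ)..1, (if x ≤ max (τ t) (τ t₀) then ‖f x‖ else 0)) -
          (∫ x in (0 : ℝ)..1, (if x ≤ min (τ t) (τ t₀) then ‖f x‖ else 0))) := by
        rw [intervalIntegral.integral_add hint1 ((intervalIntegrable_cut_norm hf _ 0 1).sub
            (intervalIntegrable_cut_norm hf _ 0 1)),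
          intervalIntegral.integral_sub (intervalIntegrable_cut_norm hf _ 0 1)
            (intervalIntegrable_cut_norm hf _ 0 1)]
    _ ≤ _ := by linarith

/-- the path point at time `t` -/
noncomputable def pathPt {e : ℕ} {M : ℕ → ℕ} {R : ℕ → TT → TT} (hR : Rounding e M R) (f : KM)
    (τ : ℝ → ℝ) (t : Iu) : KM :=
  ⟨fun x => if 0 ≤ x ∧ x < 1 then cut R f.1 τ t x else 0,
    Measurable.ite (measurableSet_Ici.inter measurableSet_Iio) (measurable_cut hR f.2 τ t)
      measurable_const⟩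

theorem goodPath_pathPt {e : ℕ} {M : ℕ → ℕ} {R : ℕ → TT → TT} (hM : ∀ k, M k ∣ M (k + 1))
    (hR : Rounding e M R) (f : KM) (hef : e • f = 0) {τ : ℝ → ℝ} (hτ0 : τ 0 = 0) (hτ1 : τ 1 = 1)
    (hτ : ∀ t ∈ Icc (0 : ℝ) 1, τ t ∈ Icc (0 : ℝ) 1 ∧
      ∫ x in (0 : ℝ)..τ t, ‖f.1 x‖ = t * ∫ x in (0 : ℝ)..1, ‖f.1 x‖) :
    GoodPath NM (mord M) f (pathPt hR f τ) ∧ ∀ t : Iu, NM (pathPt hR f τ t) ≤ t * NM f := by
  have hf : Measurable f.1 := f.2
  have hef' : ∀ x, e • f.1 x = 0 := fun x => congrArg (fun g : KM => g.1 x) hef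
  have hnorm : ∀ t : Iu, NM (pathPt hR f τ t) ≤ t * NM f := by
    intro t
    have htI : (t : ℝ) ∈ Icc (0 : ℝ) 1 := ⟨t.2.1.le, t.2.2.le⟩
    rw [NM_apply, NM_apply, ← (hτ t htI).2, ← integral_cut_norm (hτ t htI).1]
    refine intervalIntegral.integral_mono_on zero_le_one
      (norm_intervalIntegrable (pathPt hR f τ t).2 0 1) (intervalIntegrable_cut_norm hf _ 0 1) ?_
    intro x _
    simp only [pathPt]
    split_ifs with h1 h2 h2
    · simp only [cut, h2, if_true]
      exact norm_rnd_le hR hf t x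
    · simp [cut, h2]
    · simp
    · simp
  refine ⟨⟨?_, ?_, ?_⟩, hnorm⟩
  · -- continuity
    intro t₀ ht₀
    have hval : ∀ t ∈ Icc (0 : ℝ) 1, ∀ x ∈ Ioo (0 : ℝ) 1,
        (ext f (pathPt hR f τ) t).1 x = cut R f.1 τ t x := by
      intro t ht x hx
      rcases eq_or_lt_of_le ht.1 with h | h
      · subst h
        rw [ext_zero]
        have : ¬ x ≤ τ 0 := by rw [hτ0]; exact not_le.2 hx.1
        simp [cut, this]
      · rcases eq_or_lt_of_le ht.2 with h' | h'
        · subst h'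
          rw [ext_one]
          have : x ≤ τ 1 := by rw [hτ1]; exact hx.2.le
          simp [cut, this, rnd]
        · have h1 := ext_mem (y := f) (c := pathPt hR f τ) ⟨t, h, h'⟩
          simp only at h1
          rw [h1]
          have h2 : 0 ≤ x ∧ x < 1 := ⟨hx.1.le, hx.2⟩
          simp [pathPt, h2]
    have hle : ∀ t ∈ Icc (0 : ℝ) 1, NM (ext f (pathPt hR f τ) t - ext f (pathPt hR f τ) t₀) ≤
        (∫ x in (0 : ℝ)..1, ‖rnd R f.1 t x - rnd R f.1 t₀ x‖) +
        |t - t₀| * ∫ x in (0 : ℝ)..1, ‖f.1 x‖ := by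
      intro t ht
      refine le_trans (le_of_eq ?_) (cut_estimate hR hf ht ht₀ hτ)
      rw [NM_apply]
      refine intervalIntegral.integral_congr_Ioo_of_le zero_le_one ?_
      intro x hx
      change ‖(ext f (pathPt hR f τ) t).1 x - (ext f (pathPt hR f τ) t₀).1 x‖ = _
      rw [hval t ht x hx, hval t₀ ht₀ x hx]
    have hlim : Tendsto (fun t => (∫ x in (0 : ℝ)..1, ‖rnd R f.1 t x - rnd R f.1 t₀ x‖) +
        |t - t₀| * ∫ x in (0 : ℝ)..1, ‖f.1 x‖) (𝓝[Icc 0 1] t₀) (𝓝 0) := by
      have h1 := tendsto_rnd hR hf ht₀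
      have h2 : Tendsto (fun t => |t - t₀| * ∫ x in (0 : ℝ)..1, ‖f.1 x‖) (𝓝[Icc 0 1] t₀)
          (𝓝 (|t₀ - t₀| * ∫ x in (0 : ℝ)..1, ‖f.1 x‖)) := by
        have : Continuous (fun t => |t - t₀| * ∫ x in (0 : ℝ)..1, ‖f.1 x‖) := by fun_prop
        exact this.continuousAt.tendsto.mono_left nhdsWithin_le_nhds
      have h3 := h1.add h2
      simpa using h3
    refine squeeze_zero' (Eventually.of_forall fun t => apply_nonneg NM _) ?_ hlim
    filter_upwards [self_mem_nhdsWithin] with t ht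
    exact hle t ht
  · intro t
    apply Subtype.ext
    funext x
    change mord M t • (pathPt hR f τ t).1 x = 0
    simp only [pathPt]
    split_ifs with h1
    · unfold cut
      split_ifs
      · have ht1 : (t : ℝ) < 1 := t.2.2
        simp only [rnd, ht1, if_true]
        have hfl : ⌊1 / (1 - (t : ℝ)) + x⌋₊ ≤ ⌈1 / (1 - (t : ℝ))⌉₊ := by
          rw [← Nat.lt_succ_iff, Nat.floor_lt' (Nat.succ_ne_zero _)]
          have h2 := Nat.le_ceil (1 / (1 - (t : ℝ)))
          push_cast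
          linarith [h1.2]
        obtain ⟨z, hz⟩ := chain_dvd hM hfl
        rw [mord, hz, mul_comm, mul_smul, hR.ord _ _ (hef' x), smul_zero]
      · exact smul_zero _
    · exact smul_zero _
  · intro t
    have h1 := hnorm t
    have h2 : 0 ≤ NM f := apply_nonneg NM f
    have h3 : (t : ℝ) ≤ (1 + t) / 2 := by linarith [t.2.2]
    exact h1.trans (mul_le_mul_of_nonneg_right h3 h2)

/-- a bump -/
noncomputable def bump (b : TT) (ρ : ℝ) : KM :=
  ⟨fun x => if 0 < x ∧ x ≤ ρ then b else 0,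
    Measurable.ite (measurableSet_Ioi.inter measurableSet_Iic) measurable_const measurable_const⟩

theorem bump_of_nonpos {b : TT} {ρ : ℝ} (h : ρ ≤ 0) : bump b ρ = 0 := by
  apply Subtype.ext
  funext x
  simp only [bump]
  split_ifs with h1
  · exact absurd (h1.1.trans_le h1.2) (not_lt.2 h)
  · rfl

theorem NM_bump {b : TT} {ρ : ℝ} (hρ : ρ ∈ Icc (0 : ℝ) 1) : NM (bump b ρ) = ρ * ‖b‖ := by
  rw [NM_apply]
  have h1 : ∫ x in (0 : ℝ)..1, ‖(bump b ρ).1 x‖ =
      ∫ x in (0 : ℝ)..1, {x | x ≤ ρ}.indicator (fun _ => ‖b‖) x := by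
    refine intervalIntegral.integral_congr_Ioo_of_le zero_le_one ?_
    intro x hx
    simp only [bump, indicator, mem_ofPred_eq]
    by_cases h : x ≤ ρ
    · have : 0 < x ∧ x ≤ ρ := ⟨hx.1, h⟩
      simp [this]
    · have : ¬ (0 < x ∧ x ≤ ρ) := fun h' => h h'.2
      simp [h, this]
  rw [h1, intervalIntegral.integral_indicator hρ]
  simp

theorem NM_bump_sub {b : TT} {ρ ρ' : ℝ} (hρ : ρ ∈ Icc (0 : ℝ) 1) (hρ' : ρ' ∈ Icc (0 : ℝ) 1) :
    NM (bump b ρ - bump b ρ') ≤ |ρ - ρ'| := by
  wlog h : ρ' ≤ ρ generalizing ρ ρ'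
  · have := this hρ' hρ (le_of_not_ge h)
    rwa [← map_neg_eq_map, neg_sub, abs_sub_comm]
  rw [abs_of_nonneg (sub_nonneg.2 h), NM_apply]
  have hi : ∀ s : ℝ, IntervalIntegrable (fun x => if x ≤ s then (1 : ℝ) else 0)
      volume 0 1 := fun s => intervalIntegrable_of_bdd (C := 1)
    (Measurable.ite measurableSet_Iic measurable_const measurable_const) (fun x => by
      split_ifs <;> simp) 0 1
  have hv : ∀ s ∈ Icc (0 : ℝ) 1, ∫ x in (0 : ℝ)..1, (if x ≤ s then (1 : ℝ) else 0) = s := by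
    intro s hs
    have h1 : ∫ x in (0 : ℝ)..1, {x | x ≤ s}.indicator (fun _ => (1 : ℝ)) x = s := by
      rw [intervalIntegral.integral_indicator hs]
      simp
    exact h1
  calc ∫ x in (0 : ℝ)..1, ‖(bump b ρ - bump b ρ').1 x‖
      ≤ ∫ x in (0 : ℝ)..1, ((if x ≤ ρ then (1 : ℝ) else 0) -
          (if x ≤ ρ' then (1 : ℝ) else 0)) := by
        refine intervalIntegral.integral_mono_on zero_le_one
          (norm_intervalIntegrable (bump b ρ - bump b ρ').2 0 1) ((hi ρ).sub (hi ρ')) ?_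
        intro x _
        have hnb : ‖b‖ ≤ 1 := (norm_le_half b).trans (by norm_num)
        change ‖(bump b ρ).1 x - (bump b ρ').1 x‖ ≤ _
        simp only [bump]
        by_cases h0 : 0 < x <;> by_cases h1 : x ≤ ρ' <;> by_cases h2 : x ≤ ρ
        · simp [h0, h1, h2]
        · exact absurd (h1.trans h) h2
        · simpa [h0, h1, h2] using hnb
        · simp [h0, h1, h2]
        · simp [h0, h1, h2]
        · exact absurd (h1.trans h) h2
        · simp [h0, h1, h2]
        · simp [h0, h1, h2]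
    _ = ρ - ρ' := by
        rw [intervalIntegral.integral_sub (hi ρ) (hi ρ'), hv ρ hρ, hv ρ' hρ']

theorem reach {e : ℕ} {M : ℕ → ℕ} {R : ℕ → TT → TT} (hM : ∀ k, M k ∣ M (k + 1))
    (hR : Rounding e M R) : Reach NM e (mord M) := by
  classical
  refine ⟨?_, ?_⟩
  · intro f hef
    obtain ⟨τ, h0, h1, hτ⟩ := exists_tau f.2
    exact ⟨_, (goodPath_pathPt hM hR f hef h0 h1 hτ).1⟩
  · intro f hef hNf t₁ F k₁ hk₁
    obtain ⟨τ, h0, h1, hτ⟩ := exists_tau f.2
    obtain ⟨hc, hcn⟩ := goodPath_pathPt hM hR f hef h0 h1 hτ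
    -- the element `b`
    obtain ⟨b, hb1, hb2⟩ : ∃ b : TT, mord M t₁ • b = 0 ∧ 0 < ‖k₁ • b‖ := by
      rcases Nat.eq_zero_or_pos (mord M t₁) with h | h
      · have hk0 : k₁ ≠ 0 := by
          rintro rfl
          exact hk₁ (dvd_zero _)
        refine ⟨((1 / (2 * k₁) : ℝ) : TT), by rw [h, zero_smul], ?_⟩
        rw [norm_pos_iff, ← AddCircle.coe_zsmul]
        intro h'
        rw [AddCircle.coe_eq_zero_iff] at h'
        obtain ⟨z, hz⟩ := h'
        rw [zsmul_eq_mul, zsmul_eq_mul, mul_one] at hz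
        have h3 : (k₁ : ℝ) ≠ 0 := by exact_mod_cast hk0
        field_simp at hz
        have h4 : (2 * z : ℤ) = 1 := by
          have : (2 * z : ℝ) = 1 := by linarith
          exact_mod_cast this
        omega
      · refine ⟨((1 / (mord M t₁) : ℝ) : TT), ?_, ?_⟩
        · rw [← AddCircle.coe_nsmul, nsmul_eq_mul, mul_one_div_cancel (by exact_mod_cast h.ne'),
            AddCircle.coe_eq_zero_iff]
          exact ⟨1, by simp⟩
        · rw [norm_pos_iff, ← AddCircle.coe_zsmul]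
          intro h'
          rw [AddCircle.coe_eq_zero_iff] at h'
          obtain ⟨z, hz⟩ := h'
          rw [zsmul_eq_mul, zsmul_eq_mul, mul_one] at hz
          apply hk₁
          refine ⟨z, ?_⟩
          have h3 : (mord M t₁ : ℝ) ≠ 0 := by exact_mod_cast h.ne'
          field_simp at hz
          have h4 : (k₁ : ℝ) = mord M t₁ * z := by linarith
          exact_mod_cast h4
    -- the neighbourhood of `t₁`
    have ht₁ : (t₁ : ℝ) ∈ Ioo (0 : ℝ) 1 := t₁.2
    have hev : ∀ᶠ t in 𝓝 (t₁ : ℝ), (t ∈ Ioo (0 : ℝ) 1) ∧ (∀ s ∈ F.erase t₁, (s : ℝ) ≠ t) ∧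
        (1 - (t₁ : ℝ)) / 2 < 1 - t ∧ ⌈1 / (1 - (t₁ : ℝ))⌉₊ ≤ ⌈1 / (1 - t)⌉₊ := by
      refine Filter.Eventually.and (Ioo_mem_nhds ht₁.1 ht₁.2)
        (Filter.Eventually.and ?_ (Filter.Eventually.and ?_ ?_))
      · rw [Filter.eventually_all_finset]
        intro s hs
        have : (s : ℝ) ≠ t₁ := fun h => (Finset.mem_erase.1 hs).1 (Subtype.ext h)
        exact Filter.Eventually.mono (isOpen_ne.mem_nhds this.symm) fun t ht => Ne.symm ht
      · have : ContinuousAt (fun t : ℝ => 1 - t) t₁ := by fun_prop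
        refine this.eventually (lt_mem_nhds ?_)
        linarith [ht₁.2]
      · have hpos : 0 < ⌈1 / (1 - (t₁ : ℝ))⌉₊ := by
          rw [Nat.ceil_pos]
          exact one_div_pos.2 (by linarith [ht₁.2])
        have hlt : ((⌈1 / (1 - (t₁ : ℝ))⌉₊ - 1 : ℕ) : ℝ) < 1 / (1 - (t₁ : ℝ)) := by
          rw [← Nat.lt_ceil]
          omega
        have hc' : ContinuousAt (fun t : ℝ => 1 / (1 - t)) t₁ :=
          ContinuousAt.div continuousAt_const (continuousAt_const.sub continuousAt_id)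
            (by simp; linarith [ht₁.2])
        filter_upwards [hc'.eventually (lt_mem_nhds hlt)] with t ht
        rw [← Nat.lt_ceil] at ht
        omega
    obtain ⟨δ, hδ, hδ'⟩ := Metric.eventually_nhds_iff.1 hev
    -- the bump function
    set r : ℝ := min 1 ((1 - (t₁ : ℝ)) / 2 * NM f) with hr
    have hr0 : 0 < r := lt_min one_pos (mul_pos (by linarith [ht₁.2]) hNf)
    let ρ : ℝ → ℝ := fun t => r * max 0 (1 - |t - t₁| / δ)
    have hρc : Continuous ρ := by
      change Continuous fun t : ℝ => r * max 0 (1 - |t - t₁| / δ)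
      fun_prop
    have hρ0 : ∀ t, 0 ≤ ρ t := fun t => mul_nonneg hr0.le (le_max_left _ _)
    have hρr : ∀ t, ρ t ≤ r := by
      intro t
      refine mul_le_of_le_one_right hr0.le (max_le zero_le_one ?_)
      have : 0 ≤ |t - t₁| / δ := by positivity
      linarith
    have hρ1 : ∀ t, ρ t ∈ Icc (0 : ℝ) 1 := fun t => ⟨hρ0 t, (hρr t).trans (min_le_left _ _)⟩
    have hρsupp : ∀ t, 0 < ρ t → dist t t₁ < δ := by
      intro t ht
      by_contra hcon
      rw [Real.dist_eq, not_lt] at hcon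
      have : 1 - |t - t₁| / δ ≤ 0 := by
        rw [sub_nonpos, le_div_iff₀ hδ]
        linarith
      have : ρ t = 0 := by
        change r * max 0 (1 - |t - t₁| / δ) = 0
        rw [max_eq_left this, mul_zero]
      linarith
    have hρout : ∀ t, t ∉ Ioo (0 : ℝ) 1 → ρ t = 0 := by
      intro t ht
      by_contra hne
      exact ht (hδ' (hρsupp t (lt_of_le_of_ne (hρ0 t) (Ne.symm hne)))).1
    have hρt₁ : ρ t₁ = r := by
      change r * max 0 (1 - |(t₁ : ℝ) - t₁| / δ) = r
      simp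
    let β : Iu → KM := fun t => bump b (ρ t)
    have hβ : ∀ t ∈ Icc (0 : ℝ) 1, ext (0 : KM) β t = bump b (ρ t) := by
      intro t ht
      by_cases h : t ∈ Ioo (0 : ℝ) 1
      · exact ext_mem (y := (0 : KM)) (c := β) ⟨t, h⟩
      · rw [hρout t h, bump_of_nonpos le_rfl]
        unfold ext
        simp [h]
    have hextadd : ∀ t, ext f (fun t => pathPt hR f τ t + β t) t =
        ext f (pathPt hR f τ) t + ext (0 : KM) β t := by
      intro t
      unfold ext
      split_ifs <;> simp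
    refine ⟨pathPt hR f τ, fun t => pathPt hR f τ t + β t, hc, ⟨?_, ?_, ?_⟩, ?_, ?_⟩
    · intro t₀ ht₀
      have h2 := hc.cont t₀ ht₀
      have h3 : Tendsto (fun t => |ρ t - ρ t₀|) (𝓝[Icc 0 1] t₀) (𝓝 0) := by
        have : Tendsto (fun t => |ρ t - ρ t₀|) (𝓝 t₀) (𝓝 |ρ t₀ - ρ t₀|) := by
          have h4 : Continuous fun t => |ρ t - ρ t₀| := by fun_prop
          exact h4.continuousAt
        rw [sub_self, abs_zero] at this
        exact this.mono_left nhdsWithin_le_nhds
      have h4 := h2.add h3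
      rw [add_zero] at h4
      refine squeeze_zero' (Eventually.of_forall fun t => apply_nonneg NM _) ?_ h4
      filter_upwards [self_mem_nhdsWithin] with t ht
      rw [hextadd, hextadd, hβ t ht, hβ t₀ ht₀, add_sub_add_comm]
      exact (map_add_le_add NM _ _).trans (add_le_add le_rfl (NM_bump_sub (hρ1 t) (hρ1 t₀)))
    · intro t
      rw [smul_add, hc.ord, zero_add]
      change mord M t • bump b (ρ t) = 0
      rcases eq_or_lt_of_le (hρ0 t) with h | h
      · rw [bump_of_nonpos h.symm.le, smul_zero]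
      · have h2 := (hδ' (hρsupp t h)).2.2.2
        obtain ⟨z, hz⟩ := chain_dvd hM h2
        apply Subtype.ext
        funext x
        change mord M t • (if 0 < x ∧ x ≤ ρ t then b else 0) = 0
        split_ifs
        · rw [mord, hz, mul_comm, mul_smul]
          rw [mord] at hb1
          rw [hb1, smul_zero]
        · exact smul_zero _
    · intro t
      have h2 := hcn t
      have h3 : NM (β t) = ρ t * ‖b‖ := NM_bump (hρ1 t)
      have h4 : ρ t * ‖b‖ ≤ ρ t / 2 := by
        have := mul_le_mul_of_nonneg_left (norm_le_half b) (hρ0 t)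
        linarith
      have h5 : ρ t / 2 ≤ (1 - t) / 2 * NM f := by
        rcases eq_or_lt_of_le (hρ0 t) with h | h
        · rw [← h]
          have h10 : 0 ≤ 1 - (t : ℝ) := by linarith [t.2.2]
          have h11 := apply_nonneg NM f
          have := mul_nonneg h10 h11
          linarith
        · have h6 := (hδ' (hρsupp t h)).2.2.1
          have h7 : ρ t ≤ (1 - (t₁ : ℝ)) / 2 * NM f := (hρr t).trans (min_le_right _ _)
          have h8 : (1 - (t₁ : ℝ)) / 2 * NM f ≤ (1 - t) * NM f :=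
            mul_le_mul_of_nonneg_right h6.le hNf.le
          linarith
      have h6 := map_add_le_add NM (pathPt hR f τ t) (β t)
      calc NM (pathPt hR f τ t + β t) ≤ NM (pathPt hR f τ t) + NM (β t) := h6
        _ ≤ t * NM f + (1 - t) / 2 * NM f := by linarith
        _ = (1 + t) / 2 * NM f := by ring
    · intro t ht hne
      change pathPt hR f τ t = pathPt hR f τ t + bump b (ρ t)
      have : ρ t = 0 := by
        by_contra h
        have h2 := (hδ' (hρsupp t (lt_of_le_of_ne (hρ0 t) (Ne.symm h)))).2.1 t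
          (Finset.mem_erase.2 ⟨hne, ht⟩)
        exact h2 rfl
      rw [this, bump_of_nonpos le_rfl, add_zero]
    · change 0 < NM (k₁ • (pathPt hR f τ t₁ - (pathPt hR f τ t₁ + bump b (ρ t₁))))
      rw [sub_add_cancel_left, smul_neg, map_neg_eq_map, hρt₁]
      have h2 : k₁ • bump b r = bump (k₁ • b) r := by
        apply Subtype.ext
        funext x
        change k₁ • (if 0 < x ∧ x ≤ r then b else 0) = if 0 < x ∧ x ≤ r then k₁ • b else 0
        split_ifs
        · rfl
        · exact smul_zero _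
      rw [h2, NM_bump ⟨hr0.le, min_le_left _ _⟩]
      exact mul_pos hr0 hb2

/-! ### Two kinds of chains -/

/-- rounding a real towards zero to a multiple of `1 / m` -/
noncomputable def rr (m : ℕ) (s : ℝ) : ℝ :=
  if 0 ≤ s then (⌊(m : ℝ) * s⌋₊ : ℝ) / m else -((⌊(m : ℝ) * (-s)⌋₊ : ℝ) / m)

theorem measurable_rr (m : ℕ) : Measurable (rr m) := by
  unfold rr
  refine Measurable.ite measurableSet_Ici ?_ ?_
  · exact ((measurable_from_top (f := fun n : ℕ => (n : ℝ))).comp
      (Nat.measurable_floor.comp (measurable_const.mul measurable_id))).div_const _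
  · exact (((measurable_from_top (f := fun n : ℕ => (n : ℝ))).comp
      (Nat.measurable_floor.comp (measurable_const.mul measurable_id.neg))).div_const _).neg

theorem rr_spec {m : ℕ} (hm : m ≠ 0) (s : ℝ) : |rr m s| ≤ |s| ∧ |rr m s - s| ≤ 1 / m := by
  have hm' : (0 : ℝ) < m := by exact_mod_cast Nat.pos_of_ne_zero hm
  have key : ∀ s : ℝ, 0 ≤ s → 0 ≤ (⌊(m : ℝ) * s⌋₊ : ℝ) / m ∧ (⌊(m : ℝ) * s⌋₊ : ℝ) / m ≤ s ∧
      s - 1 / m ≤ (⌊(m : ℝ) * s⌋₊ : ℝ) / m := by
    intro s hs
    have h1 : (⌊(m : ℝ) * s⌋₊ : ℝ) ≤ m * s := Nat.floor_le (by positivity)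
    have h2 : (m : ℝ) * s < ⌊(m : ℝ) * s⌋₊ + 1 := Nat.lt_floor_add_one _
    refine ⟨by positivity, ?_, ?_⟩
    · rw [div_le_iff₀ hm']
      linarith
    · rw [le_div_iff₀ hm', sub_mul, one_div, inv_mul_cancel₀ hm'.ne']
      linarith
  unfold rr
  split_ifs with h
  · obtain ⟨h1, h2, h3⟩ := key s h
    rw [abs_of_nonneg h1, abs_of_nonneg h, abs_le]
    have : (0 : ℝ) ≤ 1 / m := by positivity
    exact ⟨h2, by linarith, by linarith⟩
  · obtain ⟨h1, h2, h3⟩ := key (-s) (by linarith)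
    rw [abs_neg, abs_of_nonneg h1, abs_of_neg (not_le.1 h), abs_le]
    have : (0 : ℝ) ≤ 1 / m := by positivity
    exact ⟨h2, by linarith, by linarith⟩

theorem smul_coe_rr {m : ℕ} (hm : m ≠ 0) (s : ℝ) : m • ((rr m s : ℝ) : TT) = 0 := by
  have hm' : (m : ℝ) ≠ 0 := by exact_mod_cast hm
  rw [← AddCircle.coe_nsmul, nsmul_eq_mul, AddCircle.coe_eq_zero_iff]
  unfold rr
  split_ifs
  · refine ⟨(⌊(m : ℝ) * s⌋₊ : ℤ), ?_⟩
    rw [mul_div_cancel₀ _ hm']
    simp
  · refine ⟨-(⌊(m : ℝ) * (-s)⌋₊ : ℤ), ?_⟩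
    generalize ⌊(m : ℝ) * (-s)⌋₊ = n
    rw [mul_neg, mul_div_cancel₀ _ hm']
    simp

theorem rounding_id (e : ℕ) : Rounding e (fun _ => e) (fun _ y => y) :=
  ⟨fun _ => measurable_id, fun _ _ => le_rfl, fun _ _ h => h, fun _ => tendsto_const_nhds⟩

theorem rounding_rr (e : ℕ) {M : ℕ → ℕ} (h0 : ∀ k, M k ≠ 0) (hM : Tendsto M atTop atTop) :
    Rounding e M (fun k y => ((rr (M k) (lft y) : ℝ) : TT)) := by
  refine ⟨fun k => AddCircle.measurable_mk'.comp ((measurable_rr _).comp measurable_lft), ?_, ?_, ?_⟩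
  · intro k y
    rw [norm_eq_abs_lft y]
    exact (norm_coe_le _).trans (rr_spec (h0 k) _).1
  · intro k y _
    exact smul_coe_rr (h0 k) _
  · intro y
    rw [tendsto_iff_norm_sub_tendsto_zero]
    have h1 : ∀ k, ‖((rr (M k) (lft y) : ℝ) : TT) - y‖ ≤ 1 / (M k : ℝ) := by
      intro k
      have : ((rr (M k) (lft y) : ℝ) : TT) - y = ((rr (M k) (lft y) - lft y : ℝ) : TT) := by
        rw [AddCircle.coe_sub, coe_lft]
      rw [this]
      exact (norm_coe_le _).trans (rr_spec (h0 k) _).2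
    refine squeeze_zero (fun k => norm_nonneg _) h1 ?_
    exact tendsto_one_div_atTop_nhds_zero_nat.comp hM

/-- good chains of orders for groups of exponent `e` -/
structure GoodChain (e : ℕ) (M : ℕ → ℕ) : Prop where
  dvd : ∀ k, M k ∣ M (k + 1)
  typ : (∀ k, M k = e) ∨ ((∀ k, M k ≠ 0) ∧ Tendsto M atTop atTop)

theorem GoodChain.reach {e : ℕ} {M : ℕ → ℕ} (h : GoodChain e M) : Reach NM e (mord M) := by
  rcases h.typ with h1 | ⟨h1, h2⟩
  · have : M = fun _ => e := funext h1
    subst this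
    exact Pool.Agent.H66.reach h.dvd (rounding_id e)
  · exact Pool.Agent.H66.reach h.dvd (rounding_rr e h1 h2)

end Pool.Agent.H66
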