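import Mathlib
import Pool.Agent.H66.Circle

/-! Availability of independent elements (used for `MP_451483_gt`). -/

open Set Filter Topology Cardinal

namespace Pool.Agent.H66

universe u

/-! ### Cardinality tools -/

theorem mk_le_of_fibers {X Y : Type u} {μ : Cardinal.{u}} (hμ : ℵ₀ ≤ μ) (f : X → Y) (hY : #Y ≤ μ)
    (hf : ∀ y, #{x // f x = y} ≤ μ) : #X ≤ μ := by
  rw [← (Equiv.sigmaFiberEquiv f).cardinal_eq, mk_sigma]
  calc Cardinal.sum (fun y => #{x // f x = y}) ≤ Cardinal.sum (fun _ : Y => μ) :=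
        Cardinal.sum_le_sum _ _ hf
    _ = #Y * μ := by simp
    _ ≤ μ * μ := mul_le_mul' hY le_rfl
    _ = μ := mul_eq_self hμ

theorem mk_le_of_fibers_nat {X : Type u} {μ : Cardinal.{u}} (hμ : ℵ₀ ≤ μ) (f : X → ℕ)
    (hf : ∀ n, #{x // f x = n} ≤ μ) : #X ≤ μ := by
  refine mk_le_of_fibers hμ (fun x => ULift.up.{u} (f x)) (by simpa using hμ) ?_
  rintro ⟨n⟩
  refine le_trans (le_of_eq ?_) (hf n)
  exact Cardinal.mk_congr (Equiv.subtypeEquivRight fun x => by simp)

variable {G : Type u} [AddCommGroup G]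

/-- the homomorphism of linear combinations -/
noncomputable def comb {J : Type*} (z : J → G) : (J →₀ ℤ) →+ G :=
  Finsupp.liftAddHom fun j => zmultiplesHom G (z j)

theorem comb_apply {J : Type*} (z : J → G) (k : J →₀ ℤ) : comb z k = k.sum fun j n => n • z j := rfl

@[simp] theorem comb_single {J : Type*} (z : J → G) (j : J) (n : ℤ) :
    comb z (Finsupp.single j n) = n • z j := by
  simp [comb_apply]

theorem closure_range_le {J : Type*} (z : J → G) :
    AddSubgroup.closure (range z) ≤ (comb z).range := by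
  rw [AddSubgroup.closure_le]
  rintro _ ⟨j, rfl⟩
  exact ⟨Finsupp.single j 1, by simp⟩

theorem mk_closure_le (S : Set G) : #(AddSubgroup.closure S) ≤ max #S ℵ₀ := by
  rcases S.eq_empty_or_nonempty with rfl | hne
  · rw [AddSubgroup.closure_empty]
    have : #((⊥ : AddSubgroup G)) = 1 := by simp
    rw [this]
    exact le_max_of_le_right one_le_aleph0
  · have : Nonempty S := hne.to_subtype
    have h1 : AddSubgroup.closure S ≤ (comb (fun s : S => (s : G))).range := by
      have := closure_range_le (fun s : S => (s : G))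
      rwa [Subtype.range_coe] at this
    calc #(AddSubgroup.closure S) ≤ #((comb (fun s : S => (s : G))).range) :=
          Cardinal.mk_le_mk_of_subset h1
      _ ≤ #(S →₀ ℤ) := by
          exact Cardinal.mk_range_le
      _ ≤ max #S ℵ₀ := by
          rw [Cardinal.mk_finsupp_lift_of_infinite']
          simp

/-! ### Availability -/

/-- there are elements of order `m` independent of any subgroup of size `≤ μ`. -/
def Av (G : Type u) [AddCommGroup G] (μ : Cardinal.{u}) (m : ℕ) : Prop :=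
  ∀ H : AddSubgroup G, #H ≤ μ → ∃ z : G, m • z = 0 ∧ ∀ k : ℤ, k • z ∈ H → (m : ℤ) ∣ k

theorem Av.mono {μ μ' : Cardinal.{u}} {m : ℕ} (h : Av G μ' m) (hμ : μ ≤ μ') : Av G μ m :=
  fun H hH => h H (hH.trans hμ)

theorem Av.one (μ : Cardinal.{u}) : Av G μ 1 := fun _ _ => ⟨0, by simp, fun _ _ => by simp⟩

theorem Av.lcm {μ : Cardinal.{u}} (hμ : ℵ₀ ≤ μ) {m n : ℕ} (hm : Av G μ m) (hn : Av G μ n) :
    Av G μ (Nat.lcm m n) := by
  intro H hH
  obtain ⟨z₁, h1, h1'⟩ := hm H hH
  have hH' : #(AddSubgroup.closure ((H : Set G) ∪ {z₁})) ≤ μ := by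
    refine (mk_closure_le _).trans (max_le ?_ hμ)
    refine (Cardinal.mk_union_le _ _).trans ?_
    refine Cardinal.add_le_of_le hμ hH ?_
    rw [Cardinal.mk_singleton]
    exact one_le_aleph0.trans hμ
  obtain ⟨z₂, h2, h2'⟩ := hn _ hH'
  refine ⟨z₁ + z₂, ?_, fun k hk => ?_⟩
  · rw [smul_add]
    obtain ⟨a, ha⟩ := Nat.dvd_lcm_left m n
    obtain ⟨b, hb⟩ := Nat.dvd_lcm_right m n
    have e1 : m.lcm n • z₁ = 0 := by rw [ha, mul_comm, mul_smul, h1, smul_zero]
    have e2 : m.lcm n • z₂ = 0 := by rw [hb, mul_comm, mul_smul, h2, smul_zero]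
    rw [e1, e2, add_zero]
  · have h3 : (n : ℤ) ∣ k := by
      apply h2'
      have : k • z₂ = k • (z₁ + z₂) + (-k) • z₁ := by rw [smul_add, neg_smul]; abel
      rw [this]
      refine add_mem (AddSubgroup.subset_closure (Or.inl hk)) ?_
      exact AddSubgroup.zsmul_mem _ (AddSubgroup.subset_closure (Set.mem_union_right _
        (mem_singleton z₁))) _
    have h4 : k • z₂ = 0 := by
      obtain ⟨c, rfl⟩ := h3
      rw [mul_comm, mul_smul, natCast_zsmul, h2, smul_zero]
    have h5 : (m : ℤ) ∣ k := by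
      apply h1'
      rw [smul_add, h4, add_zero] at hk
      exact hk
    exact_mod_cast Int.coe_lcm_dvd h5 h3

theorem Av.of_dvd {μ : Cardinal.{u}} {d m : ℕ} (hm : Av G μ m) (hm0 : m ≠ 0) (hd : d ∣ m) :
    Av G μ d := by
  obtain ⟨c, rfl⟩ := hd
  intro H hH
  obtain ⟨z, h1, h2⟩ := hm H hH
  refine ⟨c • z, by rw [← mul_smul]; exact h1, fun k hk => ?_⟩
  have h3 : ((d * c : ℕ) : ℤ) ∣ k * c := by
    apply h2
    rw [mul_smul, natCast_zsmul]
    exact hk
  push_cast at h3
  have hc : (c : ℤ) ≠ 0 := by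
    intro h
    apply hm0
    have : c = 0 := by exact_mod_cast h
    simp [this]
  exact Int.dvd_of_mul_dvd_mul_right hc h3

/-- the subgroup `nG` -/
abbrev mulG (G : Type u) [AddCommGroup G] (n : ℕ) : AddSubgroup G :=
  (nsmulAddMonoidHom (α := G) n).range

theorem mem_mulG {n : ℕ} {y : G} : y ∈ mulG G n ↔ ∃ z, n • z = y := Iff.rfl

/-- small torsion, small rank give small groups -/
theorem mk_le_of_torsion_rank {μ : Cardinal.{u}} (hμ : ℵ₀ ≤ μ) (A : AddSubgroup G)
    (htor : ∀ p : ℕ, p.Prime → #{y : G // y ∈ A ∧ p • y = 0} ≤ μ)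
    (H : AddSubgroup G) (hH : #H ≤ μ) (hrank : ∀ y ∈ A, ∃ k : ℤ, k ≠ 0 ∧ k • y ∈ H) : #A ≤ μ := by
  -- bounded torsion
  have hN : ∀ N : ℕ, N ≠ 0 → #{y : G // y ∈ A ∧ N • y = 0} ≤ μ := by
    intro N
    induction N using Nat.recOnMul with
    | zero => intro h; exact absurd rfl h
    | one =>
      intro _
      have : Subsingleton {y : G // y ∈ A ∧ 1 • y = 0} :=
        ⟨fun a b => Subtype.ext (by
          have h1 := a.2.2
          have h2 := b.2.2
          rw [one_smul] at h1 h2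
          rw [h1, h2])⟩
      exact (Cardinal.le_one_iff_subsingleton.2 this).trans (one_le_aleph0.trans hμ)
    | prime p hp => intro _; exact htor p hp
    | mul a b iha ihb =>
      intro hab
      have ha : a ≠ 0 := left_ne_zero_of_mul hab
      have hb : b ≠ 0 := right_ne_zero_of_mul hab
      refine mk_le_of_fibers hμ
        (fun y : {y : G // y ∈ A ∧ (a * b) • y = 0} =>
          (⟨b • y.1, A.nsmul_mem y.2.1 b, by rw [← mul_smul]; exact y.2.2⟩ :
            {y : G // y ∈ A ∧ a • y = 0})) (iha ha) ?_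
      intro w
      rcases isEmpty_or_nonempty {x : {y : G // y ∈ A ∧ (a * b) • y = 0} //
        (⟨b • x.1, A.nsmul_mem x.2.1 b, by rw [← mul_smul]; exact x.2.2⟩ :
            {y : G // y ∈ A ∧ a • y = 0}) = w} with hemp | ⟨⟨x₀, hx₀⟩⟩
      · rw [Cardinal.mk_eq_zero]
        exact bot_le
      · refine le_trans ?_ (ihb hb)
        refine Cardinal.mk_le_of_injective
          (f := fun x => (⟨x.1.1 - x₀.1, sub_mem x.1.2.1 x₀.2.1, ?_⟩ :
            {y : G // y ∈ A ∧ b • y = 0})) ?_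
        · have h1 := congrArg Subtype.val x.2
          have h2 := congrArg Subtype.val hx₀
          simp only at h1 h2
          rw [smul_sub, h1, h2, sub_self]
        · intro x x' hxx'
          apply Subtype.ext
          apply Subtype.ext
          have := congrArg Subtype.val hxx'
          simpa using this
  -- the sets `{y ∈ A : N y ∈ H}`
  have hNH : ∀ N : ℕ, N ≠ 0 → #{y : G // y ∈ A ∧ N • y ∈ H} ≤ μ := by
    intro N hN0
    refine mk_le_of_fibers hμ (fun y : {y : G // y ∈ A ∧ N • y ∈ H} => (⟨N • y.1, y.2.2⟩ : H))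
      hH ?_
    intro w
    rcases isEmpty_or_nonempty {x : {y : G // y ∈ A ∧ N • y ∈ H} //
      (⟨N • x.1, x.2.2⟩ : H) = w} with hemp | ⟨⟨x₀, hx₀⟩⟩
    · rw [Cardinal.mk_eq_zero]
      exact bot_le
    · refine le_trans ?_ (hN N hN0)
      refine Cardinal.mk_le_of_injective
        (f := fun x => (⟨x.1.1 - x₀.1, sub_mem x.1.2.1 x₀.2.1, ?_⟩ :
          {y : G // y ∈ A ∧ N • y = 0})) ?_
      · have h1 := congrArg Subtype.val x.2
        have h2 := congrArg Subtype.val hx₀
        simp only at h1 h2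
        rw [smul_sub, h1, h2, sub_self]
      · intro x x' hxx'
        apply Subtype.ext
        apply Subtype.ext
        have := congrArg Subtype.val hxx'
        simpa using this
  have hex : ∀ y : A, ∃ N : ℕ, N ≠ 0 ∧ N • (y : G) ∈ H := by
    intro y
    obtain ⟨k, hk, hky⟩ := hrank y y.2
    refine ⟨k.natAbs, Int.natAbs_ne_zero.2 hk, ?_⟩
    rcases Int.natAbs_eq k with h | h
    · rw [h, natCast_zsmul] at hky
      exact hky
    · rw [h, neg_smul, natCast_zsmul] at hky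
      exact (neg_mem_iff).1 hky
  choose ν hν1 hν2 using hex
  refine mk_le_of_fibers_nat hμ ν fun n => ?_
  rcases isEmpty_or_nonempty {x : A // ν x = n} with hemp | ⟨⟨x₀, hx₀⟩⟩
  · rw [Cardinal.mk_eq_zero]
    exact bot_le
  · refine le_trans ?_ (hNH n (hx₀ ▸ hν1 x₀))
    refine Cardinal.mk_le_of_injective (f := fun x => (⟨x.1.1, x.1.2, by
      have := hν2 x.1
      rwa [x.2] at this⟩ : {y : G // y ∈ A ∧ n • y ∈ H})) ?_
    intro x x' hxx'
    apply Subtype.ext
    apply Subtype.ext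
    have := congrArg Subtype.val hxx'
    simpa using this

/-- the dichotomy -/
theorem av_dichotomy {μ : Cardinal.{u}} (hμ : ℵ₀ ≤ μ)
    (hG : ∀ n : ℕ, n ≠ 0 → μ < #(mulG G n)) :
    Av G μ 0 ∨ {m : ℕ | m ≠ 0 ∧ Av G μ m}.Infinite := by
  by_contra hcon
  push Not at hcon
  obtain ⟨h0, hfin⟩ := hcon
  have hne : {m : ℕ | m ≠ 0 ∧ Av G μ m}.Nonempty := ⟨1, one_ne_zero, Av.one μ⟩
  obtain ⟨n, ⟨hn0, hn⟩, hmax⟩ := hfin.exists_maximalFor id _ hne
  have hdvd : ∀ m, m ≠ 0 → Av G μ m → m ∣ n := by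
    intro m hm0 hm
    have h1 : Nat.lcm m n ∈ {m : ℕ | m ≠ 0 ∧ Av G μ m} :=
      ⟨Nat.lcm_ne_zero hm0 hn0, Av.lcm hμ hm hn⟩
    have h2 : n ≤ Nat.lcm m n := Nat.le_of_dvd (Nat.pos_of_ne_zero h1.1) (Nat.dvd_lcm_right m n)
    have h3 : Nat.lcm m n ≤ n := hmax h1 h2
    have h4 : Nat.lcm m n = n := le_antisymm h3 h2
    rw [← h4]
    exact Nat.dvd_lcm_left m n
  -- rank
  unfold Av at h0
  push Not at h0
  obtain ⟨H, hH, hHz⟩ := h0
  -- torsion
  have htor : ∀ p : ℕ, p.Prime → #{y : G // y ∈ mulG G n ∧ p • y = 0} ≤ μ := by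
    intro p hp
    obtain ⟨v, u, hu, hnv⟩ := Nat.exists_eq_pow_mul_and_not_dvd hn0 p hp.ne_one
    have hp1 : ¬ Av G μ (p ^ (v + 1)) := by
      intro h
      have := hdvd _ (pow_ne_zero _ hp.ne_zero) h
      rw [hnv, pow_succ] at this
      exact hu (Nat.dvd_of_mul_dvd_mul_left (pow_pos hp.pos v) this)
    unfold Av at hp1
    push Not at hp1
    obtain ⟨Hp, hHp, hHpz⟩ := hp1
    refine le_trans ?_ hHp
    refine Cardinal.mk_le_of_injective (f := fun y => (⟨y.1, ?_⟩ : Hp)) ?_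
    · obtain ⟨⟨w, hw⟩, hy⟩ := y.2
      have hw' : n • w = y.1 := hw
      have hz : p ^ (v + 1) • (u • w) = 0 := by
        rw [pow_succ, mul_comm, mul_smul, ← mul_smul (p ^ v) u w, ← hnv, hw', hy]
      obtain ⟨k, hk, hkp⟩ := hHpz (u • w) hz
      -- gcd of k and p^(v+1)
      have hgcd : (Int.gcd k ((p ^ (v + 1) : ℕ) : ℤ) : ℤ) • (u • w) ∈ Hp := by
        rw [Int.gcd_eq_gcd_ab, add_smul, mul_comm k, mul_smul, mul_comm _ (Int.gcdB _ _),
          mul_smul, natCast_zsmul, hz, smul_zero, add_zero]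
        exact Hp.zsmul_mem hk _
      have hdv : Int.gcd k ((p ^ (v + 1) : ℕ) : ℤ) ∣ p ^ (v + 1) := by
        have := Int.gcd_dvd_right (a := k) (b := ((p ^ (v + 1) : ℕ) : ℤ))
        exact_mod_cast this
      obtain ⟨j, hj, hj'⟩ := (Nat.dvd_prime_pow hp).1 hdv
      have hjv : j ≤ v := by
        by_contra hlt
        have : j = v + 1 := by omega
        apply hkp
        have h5 := Int.gcd_dvd_left (a := k) (b := ((p ^ (v + 1) : ℕ) : ℤ))
        rw [hj', this] at h5
        exact h5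
      rw [hj', natCast_zsmul] at hgcd
      have : y.1 = p ^ (v - j) • (p ^ j • (u • w)) := by
        rw [← mul_smul, ← pow_add, Nat.sub_add_cancel hjv, ← mul_smul, ← hnv, hw']
      rw [this]
      exact Hp.nsmul_mem hgcd _
    · intro y y' h
      apply Subtype.ext
      have := congrArg Subtype.val h
      simpa using this
  have := mk_le_of_torsion_rank hμ (mulG G n) htor H hH (by
    intro y _
    obtain ⟨k, hk, hk0⟩ := hHz y (by simp)
    exact ⟨k, by simpa using hk0, hk⟩)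
  exact absurd (hG n hn0) (not_lt.2 this)

/-- extraction of a chain -/
theorem exists_chain {S : Set ℕ} (hS : S.Infinite) (h0 : 0 ∉ S)
    (hlcm : ∀ a ∈ S, ∀ b ∈ S, Nat.lcm a b ∈ S) :
    ∃ M : ℕ → ℕ, (∀ k, M k ∈ S) ∧ (∀ k, M k ∣ M (k + 1)) ∧ Tendsto M atTop atTop := by
  classical
  have hn : ∀ k : ℕ, ∃ n ∈ S, k < n := fun k => hS.exists_gt k
  choose ν hν1 hν2 using hn
  let M : ℕ → ℕ := fun k => Nat.rec (ν 0) (fun k m => Nat.lcm m (ν k)) k
  have hM : ∀ k, M k ∈ S := by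
    intro k
    induction k with
    | zero => exact hν1 0
    | succ k ih => exact hlcm _ ih _ (hν1 k)
  refine ⟨M, hM, fun k => Nat.dvd_lcm_left _ _, ?_⟩
  rw [← tendsto_add_atTop_iff_nat 1]
  refine tendsto_atTop_mono (fun k => ?_) tendsto_id
  have h1 : M (k + 1) = Nat.lcm (M k) (ν k) := rfl
  have h2 : M (k + 1) ≠ 0 := fun h => h0 (h ▸ hM (k + 1))
  have h3 : ν k ≤ M (k + 1) := by
    rw [h1] at h2 ⊢
    exact Nat.le_of_dvd (Nat.pos_of_ne_zero h2) (Nat.dvd_lcm_right _ _)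
  exact (hν2 k).le.trans h3

end Pool.Agent.H66
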