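import Mathlib
import Pool.Agent.H66.Machine

/-! From admissible homomorphisms to group topologies (used for `MP_451483_gt`). -/

open Set Filter Topology Pointwise

namespace Pool.Agent.H66

universe u v w

/-- `G` carries a Hausdorff group topology which is path connected and in which `0` has a
neighbourhood base of open sets with path connected closures. -/
def GoodTop (G : Type u) [AddCommGroup G] : Prop :=
  ∃ _ : TopologicalSpace G, IsTopologicalAddGroup G ∧ T2Space G ∧ PathConnectedSpace G ∧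
    ∀ U : Set G, IsOpen U → (0 : G) ∈ U →
      ∃ V : Set G, IsOpen V ∧ (0 : G) ∈ V ∧ closure V ⊆ U ∧ IsPathConnected (closure V)

section

variable {K : Type v} [AddCommGroup K] (N : AddGroupSeminorm K) {G : Type u} [AddCommGroup G]

/-- basic neighbourhoods -/
def sball (F : Finset (G →+ K)) (ε : ℝ) : Set G := {y | ∀ φ ∈ F, N (φ y) < ε}

theorem mem_sball {F : Finset (G →+ K)} {ε : ℝ} {y : G} :
    y ∈ sball N F ε ↔ ∀ φ ∈ F, N (φ y) < ε := Iff.rfl

/-- the filter basis -/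
noncomputable def fbasis (Φ : Set (G →+ K)) : AddGroupFilterBasis G :=
  addGroupFilterBasisOfComm {U | ∃ F : Finset (G →+ K), ↑F ⊆ Φ ∧ ∃ ε > 0, U = sball N F ε}
    ⟨_, ∅, by simp, 1, one_pos, rfl⟩
    (by
      classical
      rintro _ _ ⟨F, hF, ε, hε, rfl⟩ ⟨F', hF', ε', hε', rfl⟩
      refine ⟨_, ⟨F ∪ F', by simp [hF, hF'], min ε ε', lt_min hε hε', rfl⟩, ?_⟩
      intro y hy
      exact ⟨fun φ hφ => (hy φ (Finset.mem_union_left _ hφ)).trans_le (min_le_left _ _),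
        fun φ hφ => (hy φ (Finset.mem_union_right _ hφ)).trans_le (min_le_right _ _)⟩)
    (by
      rintro _ ⟨F, hF, ε, hε, rfl⟩ φ _
      simpa using hε)
    (by
      rintro _ ⟨F, hF, ε, hε, rfl⟩
      refine ⟨_, ⟨F, hF, ε / 2, half_pos hε, rfl⟩, ?_⟩
      rintro _ ⟨y, hy, z, hz, rfl⟩ φ hφ
      rw [map_add]
      have h1 := hy φ hφ
      have h2 := hz φ hφ
      have h3 := map_add_le_add N (φ y) (φ z)
      linarith)
    (by
      rintro _ ⟨F, hF, ε, hε, rfl⟩
      refine ⟨_, ⟨F, hF, ε, hε, rfl⟩, ?_⟩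
      intro y hy φ hφ
      have := hy φ hφ
      rw [map_neg, map_neg_eq_map]
      exact this)

theorem mem_fbasis {Φ : Set (G →+ K)} {U : Set G} :
    U ∈ fbasis N Φ ↔ ∃ F : Finset (G →+ K), ↑F ⊆ Φ ∧ ∃ ε > 0, U = sball N F ε := Iff.rfl

variable {N}

theorem continuous_norm {Φ : Set (G →+ K)} {φ : G →+ K} (hφ : φ ∈ Φ) :
    @Continuous G ℝ (fbasis N Φ).topology _ (fun y => N (φ y)) := by
  let _ : TopologicalSpace G := (fbasis N Φ).topology
  rw [continuous_iff_continuousAt]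
  intro y
  rw [ContinuousAt, ((fbasis N Φ).nhds_hasBasis y).tendsto_iff Metric.nhds_basis_ball]
  intro ε hε
  refine ⟨sball N {φ} ε, (mem_fbasis N).2 ⟨{φ}, by simpa using hφ, ε, hε, rfl⟩, ?_⟩
  rintro _ ⟨z, hz, rfl⟩
  have h1 : N (φ z) < ε := hz φ (by simp)
  rw [Metric.mem_ball, Real.dist_eq]
  have h2 : |N (φ (y + z)) - N (φ y)| ≤ N (φ z) := by
    rw [map_add, abs_le]
    constructor
    · have := map_add_le_add N (φ y + φ z) (-φ z)
      rw [map_neg_eq_map, add_neg_cancel_right] at this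
      linarith
    · have := map_add_le_add N (φ y) (φ z)
      linarith
  exact lt_of_le_of_lt h2 h1

theorem goodTop_of (Φ : Set (G →+ K)) (hsep : ∀ y : G, y ≠ 0 → ∃ φ ∈ Φ, 0 < N (φ y))
    (hpath : ∀ y : G, ∃ γ : ℝ → G, γ 0 = 0 ∧ γ 1 = y ∧
      (∀ φ ∈ Φ, ∀ t₀ ∈ Icc (0 : ℝ) 1,
        Tendsto (fun t => N (φ (γ t) - φ (γ t₀))) (𝓝[Icc 0 1] t₀) (𝓝 0)) ∧
      (∀ φ ∈ Φ, ∀ t ∈ Ico (0 : ℝ) 1, N (φ (γ t)) ≤ (1 + t) / 2 * N (φ y))) :
    GoodTop G := by
  classical
  let τ : TopologicalSpace G := (fbasis N Φ).topology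
  have hgrp : IsTopologicalAddGroup G := (fbasis N Φ).isTopologicalAddGroup
  have hT2 : T2Space G := by
    rw [(fbasis N Φ).t2Space_iff_sInter_subset rfl]
    intro y hy
    by_contra hne
    obtain ⟨φ, hφ, h⟩ := hsep y hne
    have := hy (sball N {φ} (N (φ y))) ((mem_fbasis N).2 ⟨{φ}, by simpa using hφ, _, h, rfl⟩)
    exact lt_irrefl _ (this φ (by simp))
  -- openness and closedness
  have hopen : ∀ (F : Finset (G →+ K)) (ε : ℝ), ↑F ⊆ Φ → IsOpen (sball N F ε) := by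
    intro F ε hF
    have : sball N F ε = ⋂ φ ∈ F, {y | N (φ y) < ε} := by
      ext y; simp [mem_sball]
    rw [this]
    exact isOpen_biInter_finset fun φ hφ =>
      isOpen_lt (continuous_norm (hF hφ)) continuous_const
  have hclosed : ∀ (F : Finset (G →+ K)) (ε : ℝ), ↑F ⊆ Φ →
      IsClosed {y : G | ∀ φ ∈ F, N (φ y) ≤ ε} := by
    intro F ε hF
    have : {y : G | ∀ φ ∈ F, N (φ y) ≤ ε} = ⋂ φ ∈ F, {y | N (φ y) ≤ ε} := by
      ext y; simp
    rw [this]
    exact isClosed_biInter fun φ hφ =>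
      isClosed_le (continuous_norm (hF hφ)) continuous_const
  -- continuity of the paths
  have hcont : ∀ (γ : ℝ → G), (∀ φ ∈ Φ, ∀ t₀ ∈ Icc (0 : ℝ) 1,
      Tendsto (fun t => N (φ (γ t) - φ (γ t₀))) (𝓝[Icc 0 1] t₀) (𝓝 0)) →
      ∀ t₀ ∈ Icc (0 : ℝ) 1, Tendsto γ (𝓝[Icc 0 1] t₀) (𝓝 (γ t₀)) := by
    intro γ hγ t₀ ht₀
    rw [((fbasis N Φ).nhds_hasBasis (γ t₀)).tendsto_right_iff]
    rintro V hV
    obtain ⟨F, hF, ε, hε, rfl⟩ := (mem_fbasis N).1 hV
    have h1 : ∀ᶠ t in 𝓝[Icc 0 1] t₀, ∀ φ ∈ F, N (φ (γ t) - φ (γ t₀)) < ε := by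
      rw [Filter.eventually_all_finset]
      intro φ hφ
      exact (hγ φ (hF hφ) t₀ ht₀).eventually (gt_mem_nhds hε)
    filter_upwards [h1] with t ht
    refine ⟨γ t - γ t₀, fun φ hφ => ?_, add_sub_cancel _ _⟩
    rw [map_sub]
    exact ht φ hφ
  have hball0 : ∀ (F : Finset (G →+ K)) (ε : ℝ), 0 < ε → (0 : G) ∈ sball N F ε := by
    intro F ε hε φ _
    simpa using hε
  -- the path from 0 to y
  have key : ∀ (F : Finset (G →+ K)) (ε : ℝ), ↑F ⊆ Φ → 0 < ε →
      closure (sball N F ε) = {y : G | ∀ φ ∈ F, N (φ y) ≤ ε} ∧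
      IsPathConnected (closure (sball N F ε)) := by
    intro F ε hF hε
    have hmem : ∀ y ∈ {y : G | ∀ φ ∈ F, N (φ y) ≤ ε}, ∀ γ : ℝ → G, γ 0 = 0 →
        (∀ φ ∈ Φ, ∀ t ∈ Ico (0 : ℝ) 1, N (φ (γ t)) ≤ (1 + t) / 2 * N (φ y)) →
        ∀ t ∈ Ico (0 : ℝ) 1, γ t ∈ sball N F ε := by
      intro y hy γ h0 hγ t ht φ hφ
      have h1 := hγ φ (hF hφ) t ht
      have h2 := hy φ hφ
      have h3 : 0 ≤ N (φ y) := apply_nonneg N _
      have h4 : (1 + t) / 2 < 1 := by linarith [ht.2]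
      have h5 : 0 ≤ (1 + t) / 2 := by linarith [ht.1]
      calc N (φ (γ t)) ≤ (1 + t) / 2 * N (φ y) := h1
        _ ≤ (1 + t) / 2 * ε := mul_le_mul_of_nonneg_left h2 h5
        _ < 1 * ε := mul_lt_mul_of_pos_right h4 hε
        _ = ε := one_mul ε
    have hcl : closure (sball N F ε) = {y : G | ∀ φ ∈ F, N (φ y) ≤ ε} := by
      apply Subset.antisymm
      · exact closure_minimal (fun y hy φ hφ => (hy φ hφ).le) (hclosed F ε hF)
      · intro y hy
        obtain ⟨γ, h0, h1, hc, hn⟩ := hpath y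
        have hc1 := hcont γ hc 1 ⟨zero_le_one, le_rfl⟩
        rw [h1] at hc1
        have hc2 : Tendsto γ (𝓝[Ico 0 1] 1) (𝓝 y) :=
          hc1.mono_left (nhdsWithin_mono _ Ico_subset_Icc_self)
        have hne : (𝓝[Ico (0 : ℝ) 1] 1).NeBot := by
          rw [← mem_closure_iff_nhdsWithin_neBot, closure_Ico (by norm_num)]
          exact ⟨zero_le_one, le_rfl⟩
        refine mem_closure_of_tendsto hc2 ?_
        filter_upwards [self_mem_nhdsWithin] with t ht
        exact hmem y hy γ h0 hn t ht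
    refine ⟨hcl, ?_⟩
    rw [hcl]
    refine ⟨0, fun φ _ => by simpa using hε.le, fun {y} hy => ?_⟩
    obtain ⟨γ, h0, h1, hc, hn⟩ := hpath y
    have hcγ : Continuous (fun t : unitInterval => γ t) := by
      rw [continuous_iff_continuousAt]
      intro t₀
      have := hcont γ hc t₀ t₀.2
      refine this.comp ?_
      rw [tendsto_nhdsWithin_iff]
      exact ⟨continuous_subtype_val.continuousAt, Eventually.of_forall fun t => t.2⟩
    refine ⟨⟨⟨fun t => γ t, hcγ⟩, by simpa using h0, by simpa using h1⟩, fun t => ?_⟩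
    change γ t ∈ _
    rcases eq_or_lt_of_le t.2.2 with h | h
    · rw [h, h1]
      exact hy
    · intro φ hφ
      exact (hmem y hy γ h0 hn t ⟨t.2.1, h⟩ φ hφ).le
  refine ⟨τ, hgrp, hT2, ?_, ?_⟩
  · rw [pathConnectedSpace_iff_univ]
    have h := (key ∅ 1 (by simp) one_pos)
    rw [h.1] at h
    simpa using h.2
  · intro U hU h0
    have hU' : U ∈ 𝓝 (0 : G) := hU.mem_nhds h0
    rw [(fbasis N Φ).nhds_zero_hasBasis.mem_iff] at hU'
    obtain ⟨V, hV, hVU⟩ := hU'
    obtain ⟨F, hF, ε, hε, rfl⟩ := (mem_fbasis N).1 hV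
    have h := key F (ε / 2) hF (half_pos hε)
    refine ⟨sball N F (ε / 2), hopen F _ hF, hball0 F _ (half_pos hε), ?_, h.2⟩
    rw [h.1]
    intro y hy
    apply hVU
    intro φ hφ
    exact lt_of_le_of_lt (hy φ hφ) (half_lt_self hε)

/-- The machine: a system of independent paths gives a good topology. -/
theorem goodTop_of_system {A : Type w} [LinearOrder A] [WellFoundedLT A] {g : A → G}
    {x : A → Iu → G} {m : A → Iu → ℕ} (hT : Target N) {e : ℕ} (he : ∀ y : G, e • y = 0)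
    (hm : ∀ a t, m a t • x a t = 0) (hInd : Ind g x m) (hreach : ∀ a, Reach N e (m a))
    (hg0 : ∀ a, g a ≠ 0) (hg : ∀ y : G, y ≠ 0 → ∃ a, g a = y) : GoodTop G := by
  refine goodTop_of (N := N) {φ | Adm N g x m univ φ} ?_ ?_
  · intro y hy
    obtain ⟨a, rfl⟩ := hg y hy
    exact exists_adm_ne hT he hm hInd hreach hg0 a (g a) (g_mem_Gs (S := Iic a) (mem_Iic.2 le_rfl))
      hy
  · intro y
    by_cases hy : y = 0
    · subst hy
      refine ⟨fun _ => 0, rfl, rfl, fun φ _ t₀ _ => ?_, fun φ _ t _ => by simp⟩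
      simp only [map_zero, sub_zero]
      exact tendsto_const_nhds
    · obtain ⟨a, rfl⟩ := hg y hy
      refine ⟨ext (g a) (x a), ext_zero, ext_one, fun φ hφ t₀ ht₀ => ?_, fun φ hφ t ht => ?_⟩
      · have := (hφ a (mem_univ a)).cont t₀ ht₀
        simpa only [map_ext] using this
      · rcases eq_or_lt_of_le ht.1 with h | h
        · rw [← h, ext_zero, map_zero, map_zero]
          have := apply_nonneg N (φ (g a))
          positivity
        · have := (hφ a (mem_univ a)).norm ⟨t, h, ht.2⟩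
          have h2 := ext_mem (y := g a) (c := x a) ⟨t, h, ht.2⟩
          simp only at h2
          rw [h2]
          exact this

end

end Pool.Agent.H66
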