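import Mathlib
import Pool.Agent.H66.Avail
import Pool.Agent.H66.Topo

/-! Independent families (used for `MP_451483_gt`). -/

open Set Filter Topology Cardinal

namespace Pool.Agent.H66

universe u

variable {G : Type u} [AddCommGroup G]

theorem exists_family {J : Type u} [LinearOrder J] [WellFoundedLT J] (m : J → ℕ)
    (μ : J → Cardinal.{u}) (hμ : ∀ j, ℵ₀ ≤ μ j) (hcard : ∀ j, #(Iio j) ≤ μ j)
    (hav : ∀ j, Av G (μ j) (m j)) : ∃ z : J → G, (∀ j, m j • z j = 0) ∧
      ∀ j (k : ℤ), k • z j ∈ AddSubgroup.closure (z '' Iio j) → (m j : ℤ) ∣ k := by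
  classical
  have hstep : ∀ j (f : Iio j → G), ∃ w : G, m j • w = 0 ∧
      ∀ k : ℤ, k • w ∈ AddSubgroup.closure (range f) → (m j : ℤ) ∣ k := by
    intro j f
    refine hav j _ ((mk_closure_le _).trans (max_le ?_ (hμ j)))
    exact (Cardinal.mk_range_le).trans (hcard j)
  choose w hw1 hw2 using hstep
  let z : J → G := (wellFounded_lt (α := J)).fix (fun j f => w j (fun i => f i.1 i.2))
  have hz : ∀ j, z j = w j (fun i => z i.1) := fun j =>
    (wellFounded_lt (α := J)).fix_eq (fun j (f : ∀ i, i < j → G) => w j (fun i => f i.1 i.2)) j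
  refine ⟨z, fun j => ?_, fun j k hk => ?_⟩
  · rw [hz j]; exact hw1 j _
  · refine hw2 j (fun i => z i.1) k ?_
    rw [← hz j]
    have : range (fun i : Iio j => z i.1) = z '' Iio j := by
      ext y
      simp
    rw [this]
    exact hk

/-- independence of a family with prescribed orders -/
def IndepFam {J : Type*} (z : J → G) (m : J → ℕ) : Prop :=
  ∀ k : J →₀ ℤ, comb z k = 0 → ∀ j, (m j : ℤ) ∣ k j

theorem indepFam_of_family {J : Type*} [LinearOrder J] {z : J → G} {m : J → ℕ}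
    (h1 : ∀ j, m j • z j = 0)
    (h2 : ∀ j (k : ℤ), k • z j ∈ AddSubgroup.closure (z '' Iio j) → (m j : ℤ) ∣ k) :
    IndepFam z m := by
  classical
  intro k hk
  by_contra hcon
  push Not at hcon
  obtain ⟨j, hj⟩ := hcon
  let F : Finset J := k.support.filter fun j => ¬ (m j : ℤ) ∣ k j
  have hF : F.Nonempty := by
    refine ⟨j, Finset.mem_filter.2 ⟨?_, hj⟩⟩
    rw [Finsupp.mem_support_iff]
    intro h
    rw [h] at hj
    exact hj (dvd_zero _)
  set j₀ := F.max' hF with hj₀
  have hj₀F : j₀ ∈ F := F.max'_mem hF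
  have hj₀' := Finset.mem_filter.1 hj₀F
  apply hj₀'.2
  apply h2
  have hsum : k j₀ • z j₀ + ∑ j ∈ k.support.erase j₀, k j • z j = 0 := by
    rw [← hk, comb_apply, Finsupp.sum]
    exact Finset.add_sum_erase k.support (fun j => k j • z j) hj₀'.1
  rw [eq_neg_of_add_eq_zero_left hsum]
  refine neg_mem (sum_mem fun i hi => ?_)
  have hi' := Finset.mem_erase.1 hi
  rcases lt_or_gt_of_ne hi'.1 with h | h
  · exact AddSubgroup.zsmul_mem _ (AddSubgroup.subset_closure (mem_image_of_mem z (mem_Iio.2 h))) _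
  · have hdiv : (m i : ℤ) ∣ k i := by
      by_contra hnd
      have : i ∈ F := Finset.mem_filter.2 ⟨hi'.2, hnd⟩
      exact absurd (F.le_max' i this) (not_le.2 h)
    obtain ⟨c, hc⟩ := hdiv
    rw [hc, mul_comm, mul_smul, natCast_zsmul, h1, smul_zero]
    exact zero_mem _

theorem IndepFam.comp_equiv {J J' : Type*} {z : J → G} {m : J → ℕ} (h : IndepFam z m)
    (φ : J' ≃ J) : IndepFam (z ∘ φ) (m ∘ φ) := by
  intro k hk j
  have h1 : comb z (k.mapDomain φ) = comb (z ∘ φ) k := by
    rw [comb_apply, comb_apply]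
    exact Finsupp.sum_mapDomain_index_addMonoidHom (fun j => zmultiplesHom G (z j))
  have h2 := h (k.mapDomain φ) (by rw [h1, hk]) (φ j)
  rwa [Finsupp.mapDomain_apply φ.injective] at h2

theorem mk_Iu : #Iu = 𝔠 := Cardinal.mk_Ioo_real zero_lt_one

/-- families of independent paths -/
def HasPaths (G : Type u) [AddCommGroup G] (e : ℕ) : Prop :=
  ∃ Mf : (#G).ord.ToType → (ℕ → ℕ), (∀ a, GoodChain e (Mf a)) ∧
    ∃ z : (#G).ord.ToType × Iu → G, (∀ j, mord (Mf j.1) j.2 • z j = 0) ∧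
      IndepFam z (fun j => mord (Mf j.1) j.2)

theorem hasPaths_of_const {e : ℕ} (hG : 𝔠 ≤ #G) {M : ℕ → ℕ} (hM : GoodChain e M)
    (hav : ∀ μ < #G, ℵ₀ ≤ μ → ∀ k, Av G μ (M k)) : HasPaths G e := by
  have haleph : ℵ₀ < #G := lt_of_lt_of_le aleph0_lt_continuum hG
  refine ⟨fun _ => M, fun _ => hM, ?_⟩
  have hcardJ : #((#G).ord.ToType × Iu) = #((#G).ord.ToType) := by
    rw [Cardinal.mk_prod, mk_Iu, Cardinal.mk_ord_toType]
    simp only [Cardinal.lift_uzero, Cardinal.lift_continuum, Cardinal.lift_id']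
    exact Cardinal.mul_eq_left haleph.le hG (by
      have := Cardinal.continuum_ne_zero
      simpa using this)
  obtain ⟨φ⟩ := Cardinal.eq.1 hcardJ
  obtain ⟨z, h1, h2⟩ := exists_family (G := G) (J := (#G).ord.ToType)
    (fun j => mord M (φ.symm j).2) (fun j => max #(Iio j) ℵ₀) (fun j => le_max_right _ _)
    (fun j => le_max_left _ _) (fun j => hav _ (max_lt (Cardinal.mk_Iio_toType_ord_lt j) haleph)
      (le_max_right _ _) _)
  refine ⟨z ∘ φ, fun j => ?_, ?_⟩
  · have := h1 (φ j)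
    simpa using this
  · have := (indepFam_of_family h1 h2).comp_equiv φ
    have h3 : (fun j => mord M (φ.symm j).2) ∘ φ = fun j => mord M j.2 := by
      funext j
      simp
    rwa [h3] at this

theorem hasPaths_of_var {e : ℕ} (hG : 𝔠 < #G)
    (hav : ∀ μ < #G, ℵ₀ ≤ μ → ∃ M, GoodChain e M ∧ ∀ k, Av G μ (M k)) : HasPaths G e := by
  classical
  let A := (#G).ord.ToType
  let B := (𝔠 : Cardinal.{u}).ord.ToType
  let μ : A → Cardinal.{u} := fun a => max #(Iio a) 𝔠
  have hμlt : ∀ a, μ a < #G := fun a => max_lt (Cardinal.mk_Iio_toType_ord_lt a) hG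
  have hμ0 : ∀ a, ℵ₀ ≤ μ a := fun a => aleph0_le_continuum.trans (le_max_right _ _)
  choose Mf hMf1 hMf2 using fun a => hav (μ a) (hμlt a) (hμ0 a)
  refine ⟨Mf, hMf1, ?_⟩
  have hB : Nonempty (B ≃ Iu) := by
    have : Cardinal.lift.{0} #B = Cardinal.lift.{u} #Iu := by
      rw [mk_Iu]
      simp [B]
    exact Cardinal.lift_mk_eq'.1 this
  obtain ⟨ψ⟩ := hB
  let φ : A × Iu ≃ A ×ₗ B := (Equiv.prodCongr (Equiv.refl A) ψ.symm).trans toLex
  obtain ⟨z, h1, h2⟩ := exists_family (G := G) (J := A ×ₗ B)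
    (fun j => mord (Mf (ofLex j).1) (ψ (ofLex j).2)) (fun j => μ (ofLex j).1) (fun j => hμ0 _)
    (by
      intro j
      set a := (ofLex j).1 with ha
      have h1 : #(Iio j) ≤ #(↥(Iic a) × B) := by
        refine Cardinal.mk_le_of_injective (f := fun i : Iio j =>
          ((⟨(ofLex i.1).1, ?_⟩ : ↥(Iic a)), (ofLex i.1).2)) ?_
        · have := i.2
          rw [mem_Iio, Prod.Lex.lt_iff] at this
          rcases this with h | h
          · exact h.le
          · exact h.1.le
        · intro i i' h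
          apply Subtype.ext
          apply ofLex.injective
          have h3 := congrArg (fun x => x.1.1) h
          have h4 := congrArg (fun x => x.2) h
          exact Prod.ext h3 h4
      refine h1.trans ?_
      rw [Cardinal.mk_prod, Cardinal.lift_id, Cardinal.lift_id]
      have h2 : #(↥(Iic a)) ≤ μ a := by
        have h2 : (Iic a : Set A) = insert a (Iio a) := by
          ext j
          simp [le_iff_eq_or_lt]
        rw [h2]
        refine Cardinal.mk_insert_le.trans ?_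
        exact Cardinal.add_le_of_le (hμ0 a) (le_max_left _ _) (one_le_aleph0.trans (hμ0 a))
      have h3 : #B ≤ μ a := by
        have : #B = 𝔠 := Cardinal.mk_ord_toType _
        rw [this]
        exact le_max_right _ _
      calc #(↥(Iic a)) * #B ≤ μ a * μ a := mul_le_mul' h2 h3
        _ = μ a := mul_eq_self (hμ0 a))
    (fun j => hMf2 _ _)
  refine ⟨z ∘ φ, fun j => ?_, ?_⟩
  · have := h1 (φ j)
    simpa [φ] using this
  · have := (indepFam_of_family h1 h2).comp_equiv φ
    have h3 : (fun j : A ×ₗ B => mord (Mf (ofLex j).1) (ψ (ofLex j).2)) ∘ φ =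
        fun j => mord (Mf j.1) j.2 := by
      funext j
      simp [φ]
    rwa [h3] at this

theorem goodTop_of_hasPaths {e : ℕ} (hG : 𝔠 ≤ #G) (he : ∀ y : G, e • y = 0) (h : HasPaths G e) :
    GoodTop G := by
  classical
  obtain ⟨Mf, hMf, z, hz1, hz2⟩ := h
  have haleph : ℵ₀ < #G := lt_of_lt_of_le aleph0_lt_continuum hG
  have hinf : Infinite G := Cardinal.infinite_iff.2 haleph.le
  have hcardA : #((#G).ord.ToType) = #G := Cardinal.mk_ord_toType _
  -- enumeration of the nonzero elements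
  obtain ⟨ε⟩ : Nonempty ((#G).ord.ToType ≃ {y : G // y ∈ ({0}ᶜ : Set G)}) := by
    refine Cardinal.eq.1 ?_
    rw [hcardA]
    refine (Cardinal.mk_compl_of_infinite {0} ?_).symm
    rw [Cardinal.mk_singleton]
    exact one_lt_aleph0.trans haleph
  let g : (#G).ord.ToType → G := fun a => (ε a).1
  have hg0 : ∀ a, g a ≠ 0 := fun a => (ε a).2
  have hg : ∀ y : G, y ≠ 0 → ∃ a, g a = y := fun y hy => ⟨ε.symm ⟨y, hy⟩, by simp [g]⟩
  -- representations
  have hrep : ∀ s : G, ∃ r : (#G).ord.ToType × Iu →₀ ℤ, s ∈ (comb z).range → comb z r = s := by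
    intro s
    by_cases hs : s ∈ (comb z).range
    · obtain ⟨r, hr⟩ := hs
      exact ⟨r, fun _ => hr⟩
    · exact ⟨0, fun h => absurd h hs⟩
  choose rep hrep using hrep
  let Sa : (#G).ord.ToType → AddSubgroup G := fun a => AddSubgroup.closure (g '' Iic a)
  have hSa : ∀ a, #(Sa a) < #G := by
    intro a
    refine lt_of_le_of_lt (mk_closure_le _) (max_lt ?_ haleph)
    refine lt_of_le_of_lt Cardinal.mk_image_le ?_
    have h2 : (Iic a : Set _) = insert a (Iio a) := by
      ext j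
      simp [le_iff_eq_or_lt]
    rw [h2]
    refine lt_of_le_of_lt Cardinal.mk_insert_le ?_
    exact Cardinal.add_lt_of_lt haleph.le (Cardinal.mk_Iio_toType_ord_lt a)
      (one_lt_aleph0.trans haleph)
  let Bad : (#G).ord.ToType → Set (#G).ord.ToType := fun a =>
    ⋃ s : Sa a, Prod.fst '' ((rep s).support : Set ((#G).ord.ToType × Iu))
  have hBad : ∀ a, #(Bad a) < #G := by
    intro a
    refine lt_of_le_of_lt (Cardinal.mk_iUnion_le_sum_mk) ?_
    have h1 : Cardinal.sum (fun s : Sa a =>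
        #(Prod.fst '' ((rep s).support : Set ((#G).ord.ToType × Iu)))) ≤ #(Sa a) * ℵ₀ := by
      refine (Cardinal.sum_le_sum _ (fun _ => ℵ₀) fun s => ?_).trans (le_of_eq (by simp))
      exact ((Finset.finite_toSet _).image _).lt_aleph0.le
    exact lt_of_le_of_lt h1 (Cardinal.mul_lt_of_lt haleph.le (hSa a) haleph)
  have hstep : ∀ a (f : Iio a → (#G).ord.ToType), ∃ i, i ∉ Bad a ∧ ∀ b, i ≠ f b := by
    intro a f
    by_contra hcon
    push Not at hcon
    have h1 : (Bad a ∪ range f) = Set.univ := by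
      apply eq_univ_of_forall
      intro i
      by_cases hi : i ∈ Bad a
      · exact Or.inl hi
      · obtain ⟨b, hb⟩ := hcon i hi
        exact Or.inr ⟨b, hb.symm⟩
    have h2 : #(↥(Bad a ∪ range f)) < #G := by
      refine lt_of_le_of_lt (Cardinal.mk_union_le _ _) ?_
      exact Cardinal.add_lt_of_lt haleph.le (hBad a)
        (lt_of_le_of_lt Cardinal.mk_range_le (Cardinal.mk_Iio_toType_ord_lt a))
    rw [h1, Cardinal.mk_univ, hcardA] at h2
    exact lt_irrefl _ h2
  choose w hw1 hw2 using hstep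
  let ξ : (#G).ord.ToType → (#G).ord.ToType :=
    (wellFounded_lt (α := (#G).ord.ToType)).fix (fun a f => w a (fun i => f i.1 i.2))
  have hξ : ∀ a, ξ a = w a (fun i => ξ i.1) := fun a =>
    (wellFounded_lt (α := (#G).ord.ToType)).fix_eq
      (fun a (f : ∀ i, i < a → (#G).ord.ToType) => w a (fun i => f i.1 i.2)) a
  have hξ1 : ∀ a, ξ a ∉ Bad a := fun a => by rw [hξ a]; exact hw1 a _
  have hξ2 : ∀ a b, b < a → ξ a ≠ ξ b := fun a b hb => by
    have := hw2 a (fun i => ξ i.1) ⟨b, hb⟩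
    rwa [← hξ a] at this
  -- the system
  let x : (#G).ord.ToType → Iu → G := fun a t => z (ξ a, t)
  let m : (#G).ord.ToType → Iu → ℕ := fun a t => mord (Mf (ξ a)) t
  have hm : ∀ a t, m a t • x a t = 0 := fun a t => hz1 (ξ a, t)
  have hInd : Ind g x m := by
    intro a k hk
    -- elements of `Hs a`
    have hdec : ∀ y ∈ Hs g x a, ∃ s ∈ Sa a, ∃ r : (#G).ord.ToType × Iu →₀ ℤ,
        y = s + comb z r ∧ ∀ t, r (ξ a, t) = 0 := by
      intro y hy
      unfold Hs at hy
      induction hy using AddSubgroup.closure_induction with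
      | mem y hy =>
        rcases hy with ⟨b, hb, rfl⟩ | ⟨b, hb, t, rfl⟩
        · exact ⟨g b, AddSubgroup.subset_closure (mem_image_of_mem g (mem_Iic.2 hb)), 0,
            by simp, by simp⟩
        · refine ⟨0, zero_mem _, Finsupp.single (ξ b, t) 1, by simp [x], fun t' => ?_⟩
          rw [Finsupp.single_apply, if_neg]
          intro h
          exact hξ2 a b hb (congrArg Prod.fst h).symm
      | zero => exact ⟨0, zero_mem _, 0, by simp, by simp⟩
      | add y y' _ _ hy hy' =>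
        obtain ⟨s, hs, r, rfl, hr⟩ := hy
        obtain ⟨s', hs', r', rfl, hr'⟩ := hy'
        refine ⟨s + s', add_mem hs hs', r + r', by rw [map_add]; abel, fun t => ?_⟩
        rw [Finsupp.add_apply, hr, hr', add_zero]
      | neg y _ hy =>
        obtain ⟨s, hs, r, rfl, hr⟩ := hy
        refine ⟨-s, neg_mem hs, -r, by rw [map_neg]; abel, fun t => ?_⟩
        rw [Finsupp.neg_apply, hr, neg_zero]
    obtain ⟨s, hs, r, hsr, hr⟩ := hdec _ hk
    -- embed `k`
    have hinj : Function.Injective (fun t : Iu => (ξ a, t)) := fun t t' h => congrArg Prod.snd h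
    have hk1 : comb z (k.mapDomain (fun t : Iu => (ξ a, t))) = k.sum fun t n => n • x a t := by
      rw [comb_apply]
      exact Finsupp.sum_mapDomain_index_addMonoidHom (fun j => zmultiplesHom G (z j))
    set k' := k.mapDomain (fun t : Iu => (ξ a, t)) with hk'
    have hs1 : s = comb z (k' - r) := by
      rw [map_sub, hk1, hsr]
      abel
    have hs2 : comb z (rep s) = s := hrep s ⟨_, hs1.symm⟩
    have hzero : comb z (k' - r - rep s) = 0 := by
      rw [map_sub, ← hs1, hs2, sub_self]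
    intro t
    have h3 := hz2 _ hzero (ξ a, t)
    have h4 : (rep s) (ξ a, t) = 0 := by
      by_contra hne
      apply hξ1 a
      rw [mem_iUnion]
      exact ⟨⟨s, hs⟩, (ξ a, t), Finsupp.mem_support_iff.2 hne, rfl⟩
    have h5 : k' (ξ a, t) = k t := Finsupp.mapDomain_apply hinj k t
    rw [Finsupp.sub_apply, Finsupp.sub_apply, h4, hr, h5, sub_zero, sub_zero] at h3
    exact h3
  exact goodTop_of_system (N := NM) target he hm hInd (fun a => (hMf (ξ a)).reach) hg0 hg

theorem goodChain_const (e : ℕ) : GoodChain e (fun _ => e) := ⟨fun _ => dvd_refl _, Or.inl fun _ => rfl⟩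

/-- from availability sets to chains -/
theorem exists_goodChain {P : ℕ → Prop} (hlcm : ∀ a b, P a → P b → P (Nat.lcm a b))
    (h : P 0 ∨ {m : ℕ | m ≠ 0 ∧ P m}.Infinite) : ∃ M, GoodChain 0 M ∧ ∀ k, P (M k) := by
  rcases h with h | h
  · exact ⟨fun _ => 0, goodChain_const 0, fun _ => h⟩
  · obtain ⟨M, h1, h2, h3⟩ := exists_chain h (by simp) (by
      rintro a ⟨ha, ha'⟩ b ⟨hb, hb'⟩
      exact ⟨Nat.lcm_ne_zero ha hb, hlcm a b ha' hb'⟩)
    exact ⟨M, ⟨h2, Or.inr ⟨fun k => (h1 k).1, h3⟩⟩, fun k => (h1 k).2⟩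

theorem hasPaths_of_full (hG : 𝔠 ≤ #G) (h : ∀ n : ℕ, n ≠ 0 → #(mulG G n) = #G) :
    HasPaths G 0 := by
  classical
  have haleph : ℵ₀ < #G := lt_of_lt_of_le aleph0_lt_continuum hG
  rcases hG.eq_or_lt with heq | hlt
  · -- size continuum: a uniform chain
    have hcof : ℵ₀ < (#G).ord.cof := by
      rw [← heq, ← Cardinal.two_power_aleph0]
      exact Cardinal.lt_cof_ord_power le_rfl one_lt_two
    let P : ℕ → Prop := fun m => ∀ μ < #G, ℵ₀ ≤ μ → Av G μ m
    have hP : ∀ a b, P a → P b → P (Nat.lcm a b) := fun a b ha hb μ hμ hμ' =>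
      Av.lcm hμ' (ha μ hμ hμ') (hb μ hμ hμ')
    -- bounds for the failures
    have hν : ∀ m : ℕ, ∃ ν : Cardinal.{u}, ν < #G ∧ ℵ₀ ≤ ν ∧ (¬ P m → ¬ Av G ν m) := by
      intro m
      by_cases hm : P m
      · exact ⟨ℵ₀, haleph, le_rfl, fun h => absurd hm h⟩
      · have hm' := hm
        simp only [P] at hm'
        push Not at hm'
        obtain ⟨ν, h1, h2, h3⟩ := hm'
        exact ⟨ν, h1, h2, fun _ => h3⟩
    choose ν hν1 hν2 hν3 using hν
    let μ : Cardinal.{u} := ⨆ n : ULift.{u} ℕ, ν n.down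
    have hμ1 : μ < #G := by
      refine Cardinal.iSup_lt_of_lt_cof_ord ?_ fun n => hν1 n.down
      simpa using hcof
    have hbdd : BddAbove (range fun n : ULift.{u} ℕ => ν n.down) :=
      ⟨#G, by rintro _ ⟨n, rfl⟩; exact (hν1 n.down).le⟩
    have hνμ : ∀ m, ν m ≤ μ := fun m => le_ciSup hbdd (ULift.up m)
    have hμ2 : ℵ₀ ≤ μ := (hν2 0).trans (hνμ 0)
    have hPμ : ∀ m, Av G μ m → P m := by
      intro m hm
      by_contra hcon
      exact hν3 m hcon (hm.mono (hνμ m))
    have hdich := av_dichotomy hμ2 (fun n hn => by rw [h n hn]; exact hμ1)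
    obtain ⟨M, hM1, hM2⟩ := exists_goodChain hP (hdich.imp (hPμ 0) fun hinf =>
      hinf.mono fun m hm => ⟨hm.1, hPμ m hm.2⟩)
    exact hasPaths_of_const hG hM1 fun μ hμ hμ' k => hM2 k μ hμ hμ'
  · refine hasPaths_of_var hlt fun μ hμ hμ' => ?_
    exact exists_goodChain (fun a b => Av.lcm hμ')
      (av_dichotomy hμ' fun n hn => by rw [h n hn]; exact hμ)

/-- groups all of whose nonzero multiples have full size -/
theorem goodTop_of_full (hG : 𝔠 ≤ #G) (h : ∀ n : ℕ, n ≠ 0 → #(mulG G n) = #G) : GoodTop G :=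
  goodTop_of_hasPaths hG (fun y => zero_smul _ _) (hasPaths_of_full hG h)

/-- groups of exponent a prime power whose last layer has full size -/
theorem goodTop_of_homog (hG : 𝔠 ≤ #G) {p v : ℕ} (hp : p.Prime)
    (he : ∀ y : G, p ^ (v + 1) • y = 0) (h : #(mulG G (p ^ v)) = #G) : GoodTop G := by
  refine goodTop_of_hasPaths hG he (hasPaths_of_const hG (goodChain_const _) ?_)
  intro μ hμ _ _ H hH
  -- an element of `p ^ v G` outside `H`
  obtain ⟨y, hy, hyH⟩ : ∃ y ∈ mulG G (p ^ v), y ∉ H := by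
    by_contra hcon
    push Not at hcon
    have h1 : #(mulG G (p ^ v)) ≤ #H := Cardinal.mk_le_mk_of_subset hcon
    rw [h] at h1
    exact absurd (h1.trans hH) (not_le.2 hμ)
  obtain ⟨z, hz⟩ := hy
  have hz : p ^ v • z = y := hz
  refine ⟨z, he z, fun k hk => ?_⟩
  by_contra hnd
  apply hyH
  have hgcd : (Int.gcd k ((p ^ (v + 1) : ℕ) : ℤ) : ℤ) • z ∈ H := by
    rw [Int.gcd_eq_gcd_ab, add_smul, mul_comm k, mul_smul, mul_comm _ (Int.gcdB _ _),
      mul_smul, natCast_zsmul, he, smul_zero, add_zero]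
    exact H.zsmul_mem hk _
  have hdv : Int.gcd k ((p ^ (v + 1) : ℕ) : ℤ) ∣ p ^ (v + 1) := by
    have := Int.gcd_dvd_right (a := k) (b := ((p ^ (v + 1) : ℕ) : ℤ))
    exact_mod_cast this
  obtain ⟨j, hj, hj'⟩ := (Nat.dvd_prime_pow hp).1 hdv
  have hjv : j ≤ v := by
    by_contra hlt
    have : j = v + 1 := by omega
    apply hnd
    have h5 := Int.gcd_dvd_left (a := k) (b := ((p ^ (v + 1) : ℕ) : ℤ))
    rw [hj', this] at h5
    exact h5
  rw [hj', natCast_zsmul] at hgcd
  have : y = p ^ (v - j) • (p ^ j • z) := by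
    rw [← mul_smul, ← pow_add, Nat.sub_add_cancel hjv, hz]
  rw [this]
  exact H.nsmul_mem hgcd _

end Pool.Agent.H66
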