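import Mathlib
import Pool.Agent.H66.Family

/-! Splitting off homogeneous summands (used for `MP_451483_gt`). -/

open Set Filter Topology
open Cardinal hiding univ

namespace Pool.Agent.H66

universe u

/-! ### Stability of `GoodTop` -/

theorem GoodTop.congr {G G' : Type u} [AddCommGroup G] [AddCommGroup G'] (e : G ≃+ G')
    (h : GoodTop G) : GoodTop G' := by
  obtain ⟨τ, h1, h2, h3, h4⟩ := h
  let τ' : TopologicalSpace G' := τ.induced e.symm
  have hind : IsInducing (e.symm : G' → G) := ⟨rfl⟩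
  let Φ : G' ≃ₜ G := e.symm.toEquiv.toHomeomorphOfIsInducing hind
  have hΦ : ∀ x, Φ x = e.symm x := fun x => rfl
  have hΦ' : ∀ x, Φ.symm x = e x := fun x => rfl
  refine ⟨τ', topologicalAddGroup_induced e.symm, Φ.symm.t2Space, ?_, ?_⟩
  · exact Φ.symm.surjective.pathConnectedSpace Φ.symm.continuous
  · intro U hU h0
    obtain ⟨V, hV1, hV2, hV3, hV4⟩ := h4 (Φ '' U) (Φ.isOpenMap U hU) ⟨0, h0, by
      rw [hΦ, map_zero]⟩
    refine ⟨Φ ⁻¹' V, hV1.preimage Φ.continuous, by
      rw [mem_preimage, hΦ, map_zero]; exact hV2, ?_, ?_⟩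
    · rw [← Φ.preimage_closure]
      intro x hx
      obtain ⟨y, hy, hyx⟩ := hV3 hx
      rwa [← Φ.injective hyx]
    · rw [← Φ.preimage_closure, ← Φ.image_symm]
      exact hV4.image Φ.symm.continuous

theorem GoodTop.prod {G G' : Type u} [AddCommGroup G] [AddCommGroup G'] (h : GoodTop G)
    (h' : GoodTop G') : GoodTop (G × G') := by
  obtain ⟨τ, h1, h2, h3, h4⟩ := h
  obtain ⟨τ', h1', h2', h3', h4'⟩ := h'
  refine ⟨inferInstance, inferInstance, inferInstance, inferInstance, ?_⟩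
  intro U hU h0
  have hU' : U ∈ 𝓝 ((0 : G), (0 : G')) := hU.mem_nhds h0
  obtain ⟨U₁, U₂, hU₁, h01, hU₂, h02, hsub⟩ := mem_nhds_prod_iff'.1 hU'
  obtain ⟨V₁, a1, a2, a3, a4⟩ := h4 U₁ hU₁ h01
  obtain ⟨V₂, b1, b2, b3, b4⟩ := h4' U₂ hU₂ h02
  refine ⟨V₁ ×ˢ V₂, a1.prod b1, ⟨a2, b2⟩, ?_, ?_⟩
  · rw [closure_prod_eq]
    exact (prod_mono a3 b3).trans hsub
  · rw [closure_prod_eq]
    exact a4.prod b4

theorem goodTop_of_subsingleton {G : Type u} [AddCommGroup G] (h : Subsingleton G) :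
    GoodTop G := by
  let _ : TopologicalSpace G := ⊥
  have : DiscreteTopology G := ⟨rfl⟩
  have hj : ∀ (F : Set G) (x y : G), x ∈ F → JoinedIn F x y := by
    intro F x y hx
    rw [Subsingleton.elim y x]
    exact JoinedIn.refl hx
  refine ⟨inferInstance, inferInstance, inferInstance, ?_, ?_⟩
  · rw [pathConnectedSpace_iff_univ]
    exact ⟨0, mem_univ _, fun {y} _ => hj _ _ _ (mem_univ _)⟩
  · intro U _ h0
    refine ⟨univ, isOpen_univ, mem_univ _, ?_, ?_⟩
    · intro x _
      rwa [Subsingleton.elim x 0]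
    · rw [closure_univ]
      exact ⟨0, mem_univ _, fun {y} _ => hj _ _ _ (mem_univ _)⟩

/-! ### Kulikov's lemma for homogeneous subgroups -/

variable {G : Type u} [AddCommGroup G]

theorem mulG_mul_le (a b : ℕ) : mulG G (a * b) ≤ mulG G a := by
  rintro _ ⟨z, rfl⟩
  refine ⟨b • z, ?_⟩
  change a • b • z = (a * b) • z
  rw [mul_smul]

theorem exists_compl {p w : ℕ} (hp : p.Prime) (B : AddSubgroup G)
    (h2 : ∀ b ∈ B, p ^ w • b = 0 → ∃ b' ∈ B, b = p • b')
    (h3 : ∀ b ∈ B, b ∈ mulG G (p ^ (w + 1)) → b = 0) :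
    ∃ C : AddSubgroup G, C ⊓ B = ⊥ ∧ C ⊔ B = ⊤ := by
  let S : Set (AddSubgroup G) := {C | mulG G (p ^ (w + 1)) ≤ C ∧ ∀ b ∈ B, b ∈ C → b = 0}
  have hS0 : mulG G (p ^ (w + 1)) ∈ S := ⟨le_rfl, h3⟩
  obtain ⟨C, hC0, hC⟩ := zorn_le_nonempty₀ S (by
    intro c hcS hc y hy
    have hdir : DirectedOn (· ≤ ·) c := hc.directedOn
    refine ⟨sSup c, ⟨(hcS hy).1.trans (le_sSup hy), fun b hb hbc => ?_⟩, fun z hz => le_sSup hz⟩
    rw [AddSubgroup.mem_sSup_of_directedOn ⟨y, hy⟩ hdir] at hbc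
    obtain ⟨C', hC', hbC'⟩ := hbc
    exact (hcS hC').2 b hb hbC') _ hS0
  have hCS := hC.prop
  refine ⟨C, ?_, ?_⟩
  · rw [eq_bot_iff]
    rintro b ⟨hbC, hbB⟩
    exact AddSubgroup.mem_bot.2 (hCS.2 b hbB hbC)
  · rw [eq_top_iff]
    by_contra hcon
    rw [SetLike.not_le_iff_exists] at hcon
    obtain ⟨x₀, -, hx₀⟩ := hcon
    -- an element `x` outside with `p x` inside
    obtain ⟨x, hx, hpx⟩ : ∃ x, x ∉ C ⊔ B ∧ p • x ∈ C ⊔ B := by
      by_contra hno
      push Not at hno
      have : ∀ j : ℕ, p ^ j • x₀ ∉ C ⊔ B := by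
        intro j
        induction j with
        | zero => simpa using hx₀
        | succ j ih =>
          rw [pow_succ, mul_comm, mul_smul]
          exact hno _ ih
      exact this (w + 1) (AddSubgroup.mem_sup_left (hCS.1 ⟨x₀, rfl⟩))
    rw [AddSubgroup.mem_sup] at hpx
    obtain ⟨g, hg, b, hb, hgb⟩ := hpx
    -- `b` is divisible by `p` in `B`
    have hb0 : p ^ w • b = 0 := by
      apply hCS.2 _ (B.nsmul_mem hb _)
      have h4 : p ^ w • b = p ^ (w + 1) • x - p ^ w • g := by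
        rw [pow_succ, mul_smul, ← hgb, smul_add]
        abel
      rw [h4]
      exact sub_mem (hCS.1 ⟨x, rfl⟩) (C.nsmul_mem hg _)
    obtain ⟨b', hb', rfl⟩ := h2 b hb hb0
    set x' := x - b' with hx'
    have hx'C : p • x' ∈ C := by
      rw [hx', smul_sub, ← hgb]
      simpa using hg
    have hx'n : x' ∉ C ⊔ B := by
      intro h
      apply hx
      have : x = x' + b' := by rw [hx']; abel
      rw [this]
      exact add_mem h (AddSubgroup.mem_sup_right hb')
    -- maximality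
    have hnot : ¬ (C ⊔ AddSubgroup.zmultiples x') ∈ S := by
      intro h
      have h5 : C ⊔ AddSubgroup.zmultiples x' ≤ C := hC.le_of_ge h le_sup_left
      exact hx'n (AddSubgroup.mem_sup_left (h5 (AddSubgroup.mem_sup_right
        (AddSubgroup.mem_zmultiples x'))))
    apply hnot
    refine ⟨hCS.1.trans le_sup_left, fun b'' hb'' hmem => ?_⟩
    rw [AddSubgroup.mem_sup] at hmem
    obtain ⟨g', hg', y, hy, hgy⟩ := hmem
    obtain ⟨k, rfl⟩ := AddSubgroup.mem_zmultiples_iff.1 hy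
    by_cases hk : (p : ℤ) ∣ k
    · obtain ⟨l, rfl⟩ := hk
      apply hCS.2 _ hb''
      rw [← hgy]
      refine add_mem hg' ?_
      rw [mul_comm, mul_smul, natCast_zsmul]
      exact C.zsmul_mem hx'C l
    · exfalso
      apply hx'n
      have hcop : IsCoprime (p : ℤ) k := (Nat.prime_iff_prime_int.1 hp).coprime_iff_not_dvd.2 hk
      obtain ⟨s, t, hst⟩ := hcop
      have h6 : x' = s • (p • x') + t • (k • x') := by
        rw [← natCast_zsmul, ← mul_smul, ← mul_smul, ← add_smul, hst, one_smul]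
      rw [h6]
      refine add_mem (AddSubgroup.mem_sup_left (C.zsmul_mem hx'C s)) ?_
      apply AddSubgroup.zsmul_mem
      have h7 : k • x' = b'' - g' := by rw [← hgy]; abel
      rw [h7]
      exact sub_mem (AddSubgroup.mem_sup_right hb'') (AddSubgroup.mem_sup_left hg')

/-- the elements of order dividing `p` in `p ^ w G` -/
abbrev layerG (G : Type u) [AddCommGroup G] (p w : ℕ) : AddSubgroup G :=
  mulG G (p ^ w) ⊓ (nsmulAddMonoidHom (α := G) p).ker

theorem mem_layerG {p w : ℕ} {y : G} :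
    y ∈ layerG G p w ↔ (∃ z, p ^ w • z = y) ∧ p • y = 0 := Iff.rfl

theorem basis_facts (p : ℕ) [Fact p.Prime] (Q : Type u) [AddCommGroup Q] [Module (ZMod p) Q] :
    ∃ (ι : Type u) (b : ι → Q), (∀ k : ι →₀ ℤ, comb b k = 0 → ∀ i, (p : ℤ) ∣ k i) ∧
      ∀ x, ∃ k : ι →₀ ℤ, x = comb b k := by
  let b := Module.Basis.ofVectorSpace (ZMod p) Q
  have hmk : ∀ k : _ →₀ ℤ, comb b k =
      (k.mapRange (Int.cast : ℤ → ZMod p) Int.cast_zero).sum fun i a => a • b i := by
    intro k
    rw [Finsupp.sum_mapRange_index (by simp)]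
    rw [comb_apply, Finsupp.sum, Finsupp.sum]
    refine Finset.sum_congr rfl fun j _ => ?_
    rw [Int.cast_smul_eq_zsmul]
  refine ⟨_, b, fun k hk i => ?_, fun x => ?_⟩
  · rw [hmk] at hk
    have hli := b.linearIndependent
    rw [linearIndependent_iff] at hli
    have h1 := hli (k.mapRange (Int.cast : ℤ → ZMod p) Int.cast_zero) (by
      rw [Finsupp.linearCombination_apply]
      exact hk)
    have h2 := DFunLike.congr_fun h1 i
    rw [Finsupp.mapRange_apply] at h2
    exact (ZMod.intCast_zmod_eq_zero_iff_dvd _ _).1 (by simpa using h2)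
  · let c := b.repr x
    let k : _ →₀ ℤ := c.mapRange (fun a : ZMod p => (a.val : ℤ)) (by simp)
    refine ⟨k, ?_⟩
    have hk : k.mapRange (Int.cast : ℤ → ZMod p) Int.cast_zero = c := by
      ext i
      simp [k]
    rw [hmk, hk]
    have := b.linearCombination_repr x
    rw [Finsupp.linearCombination_apply] at this
    exact this.symm

/-- a basis of `layerG p w` modulo `layerG p (w + 1)` -/
theorem exists_basis {p w : ℕ} (hp : p.Prime) : ∃ (ι : Type u) (z : ι → G),
    (∀ i, p ^ (w + 1) • z i = 0) ∧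
    (∀ k : ι →₀ ℤ, p ^ w • comb z k ∈ layerG G p (w + 1) → ∀ i, (p : ℤ) ∣ k i) ∧
    (∀ y ∈ layerG G p w, ∃ k : ι →₀ ℤ, y - p ^ w • comb z k ∈ layerG G p (w + 1)) := by
  classical
  have : Fact p.Prime := ⟨hp⟩
  let V := layerG G p w
  let W := (layerG G p (w + 1)).addSubgroupOf V
  have hpQ : ∀ x : V ⧸ W, p • x = 0 := by
    intro x
    induction x using QuotientAddGroup.induction_on with
    | H x =>
      rw [← QuotientAddGroup.mk_nsmul]
      have : p • x = 0 := Subtype.ext x.2.2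
      rw [this]
      rfl
  obtain ⟨ι, b, hb1, hb2⟩ := @basis_facts p _ (V ⧸ W) _ (AddCommGroup.zmodModule hpQ)
  have hv : ∀ i, ∃ v : V, (QuotientAddGroup.mk v : V ⧸ W) = b i := fun i =>
    QuotientAddGroup.mk_surjective _
  choose v hv using hv
  have hz : ∀ i, ∃ z : G, p ^ w • z = v i := fun i => (v i).2.1
  choose z hz using hz
  -- combinations
  have hcomb : ∀ k, p ^ w • comb z k = ((comb v k : V) : G) := by
    intro k
    have h1 : (nsmulAddMonoidHom (α := G) (p ^ w)).comp (comb z) = V.subtype.comp (comb v) := by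
      apply Finsupp.addHom_ext
      intro i n
      change p ^ w • comb z (Finsupp.single i n) = ((comb v (Finsupp.single i n) : V) : G)
      rw [comb_single, comb_single, smul_comm, hz]
      rfl
    exact DFunLike.congr_fun h1 k
  have hmk : ∀ k : ι →₀ ℤ, (QuotientAddGroup.mk (comb v k) : V ⧸ W) = comb b k := by
    intro k
    have h1 : (QuotientAddGroup.mk' W).comp (comb v) = comb b := by
      apply Finsupp.addHom_ext
      intro i n
      change (QuotientAddGroup.mk (comb v (Finsupp.single i n)) : V ⧸ W) =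
        comb b (Finsupp.single i n)
      rw [comb_single, comb_single, QuotientAddGroup.mk_zsmul, hv]
    exact DFunLike.congr_fun h1 k
  have hmem : ∀ y : V, (QuotientAddGroup.mk y : V ⧸ W) = 0 ↔ (y : G) ∈ layerG G p (w + 1) := by
    intro y
    rw [QuotientAddGroup.eq_zero_iff, AddSubgroup.mem_addSubgroupOf]
  refine ⟨ι, z, fun i => ?_, fun k hk i => ?_, fun y hy => ?_⟩
  · rw [pow_succ, mul_comm, mul_smul, hz]
    exact (v i).2.2
  · rw [hcomb, ← hmem, hmk] at hk
    exact hb1 k hk i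
  · obtain ⟨k, hk⟩ := hb2 (QuotientAddGroup.mk ⟨y, hy⟩ : V ⧸ W)
    refine ⟨k, ?_⟩
    have h2 : (QuotientAddGroup.mk ((⟨y, hy⟩ : V) - comb v k) : V ⧸ W) = 0 := by
      rw [QuotientAddGroup.mk_sub, hmk, hk, sub_self]
    rw [hmem] at h2
    rw [hcomb]
    exact h2

theorem exists_homog_summand {μ : Cardinal.{u}} (hμ : 𝔠 ≤ μ) {p w : ℕ} (hp : p.Prime)
    (hV : μ < #(layerG G p w)) (hW : #(layerG G p (w + 1)) ≤ μ) :
    ∃ B C : AddSubgroup G, C ⊓ B = ⊥ ∧ C ⊔ B = ⊤ ∧ (∀ b ∈ B, p ^ (w + 1) • b = 0) ∧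
      GoodTop B ∧ #(↥(layerG G p w ⊓ C)) ≤ μ := by
  classical
  have hμ0 : ℵ₀ ≤ μ := aleph0_le_continuum.trans hμ
  obtain ⟨ι, z, hz1, hz2, hz3⟩ := exists_basis (G := G) (w := w) hp
  let B : AddSubgroup G := (comb z).range
  -- zero criterion
  have hdiv : ∀ k : ι →₀ ℤ, ∀ d : ℤ, d ≠ 0 → (∀ i, d ∣ k i) → ∃ k' : ι →₀ ℤ, k = d • k' := by
    intro k d hd h
    choose f hf using h
    refine ⟨Finsupp.onFinset k.support f (fun i hi => ?_), ?_⟩
    · rw [Finsupp.mem_support_iff, hf i]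
      exact mul_ne_zero hd hi
    · ext i
      rw [Finsupp.smul_apply, Finsupp.onFinset_apply, smul_eq_mul]
      exact hf i
  have hp0 : (p : ℤ) ≠ 0 := by exact_mod_cast hp.ne_zero
  have hB1 : ∀ b ∈ B, p ^ (w + 1) • b = 0 := by
    rintro _ ⟨k, rfl⟩
    have h1 : (nsmulAddMonoidHom (α := G) (p ^ (w + 1))).comp (comb z) = 0 := by
      apply Finsupp.addHom_ext
      intro i n
      change p ^ (w + 1) • comb z (Finsupp.single i n) = 0
      rw [comb_single, smul_comm, hz1, smul_zero]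
    exact DFunLike.congr_fun h1 k
  have hB2 : ∀ b ∈ B, p ^ w • b = 0 → ∃ b' ∈ B, b = p • b' := by
    rintro _ ⟨k, rfl⟩ h
    obtain ⟨k', rfl⟩ := hdiv k p hp0 (hz2 k (by rw [h]; exact zero_mem _))
    exact ⟨comb z k', ⟨k', rfl⟩, by rw [map_zsmul, natCast_zsmul]⟩
  have hB3 : ∀ b ∈ B, b ∈ mulG G (p ^ (w + 1)) → b = 0 := by
    rintro _ ⟨k, rfl⟩ hk
    have hind : ∀ s, s ≤ w + 1 → ∀ i, ((p ^ s : ℕ) : ℤ) ∣ k i := by
      intro s
      induction s with
      | zero => intro _ i; simp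
      | succ s ih =>
        intro hs i
        obtain ⟨k', hk'⟩ := hdiv k ((p ^ s : ℕ) : ℤ) (by
          exact_mod_cast pow_ne_zero s hp.ne_zero) (ih (by omega))
        have h1 : p ^ (w - s) • comb z k = p ^ w • comb z k' := by
          rw [hk', map_zsmul, natCast_zsmul, ← mul_smul, ← pow_add, Nat.sub_add_cancel (by omega)]
        have h2 : p ^ w • comb z k' ∈ layerG G p (w + 1) := by
          refine ⟨?_, ?_⟩
          · rw [← h1]
            exact AddSubgroup.nsmul_mem _ hk _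
          · change p • p ^ w • comb z k' = 0
            rw [← mul_smul, mul_comm, ← pow_succ]
            exact hB1 _ ⟨k', rfl⟩
        have h3 := hz2 k' h2 i
        rw [hk', Finsupp.smul_apply, smul_eq_mul, pow_succ, Nat.cast_mul]
        exact mul_dvd_mul_left _ h3
    obtain ⟨k', rfl⟩ := hdiv k ((p ^ (w + 1) : ℕ) : ℤ) (by
          exact_mod_cast pow_ne_zero (w + 1) hp.ne_zero) (hind _ le_rfl)
    rw [map_zsmul, natCast_zsmul]
    exact hB1 _ ⟨k', rfl⟩
  obtain ⟨C, hC1, hC2⟩ := exists_compl hp B hB2 hB3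
  -- sizes
  have hι : μ < #ι := by
    by_contra hcon
    have hcon := not_lt.1 hcon
    have h1 : #(ι →₀ ℤ) ≤ μ := by
      rcases isEmpty_or_nonempty ι with h | h
      · have : Subsingleton (ι →₀ ℤ) := inferInstance
        exact (Cardinal.le_one_iff_subsingleton.2 this).trans (one_le_aleph0.trans hμ0)
      · rw [Cardinal.mk_finsupp_lift_of_infinite']
        simp only [Cardinal.lift_uzero, Cardinal.lift_id', Cardinal.mk_int, Cardinal.lift_aleph0]
        exact max_le hcon hμ0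
    choose κ hκ using hz3
    have h2 : #(layerG G p w) ≤ μ := by
      refine mk_le_of_fibers hμ0 (fun y : layerG G p w => κ y.1 y.2) h1 fun k => ?_
      refine le_trans ?_ hW
      refine Cardinal.mk_le_of_injective (f := fun y => (⟨y.1.1 - p ^ w • comb z k, ?_⟩ :
        layerG G p (w + 1))) ?_
      · have := hκ y.1.1 y.1.2
        rwa [y.2] at this
      · intro y y' h
        apply Subtype.ext
        apply Subtype.ext
        have := congrArg Subtype.val h
        simpa using this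
    exact absurd hV (not_lt.2 h2)
  have hιinf : ℵ₀ ≤ #ι := hμ0.trans hι.le
  have hιne : Nonempty ι := Cardinal.mk_ne_zero_iff.1 fun h => by
    rw [h] at hιinf
    exact absurd hιinf (not_le.2 aleph0_pos)
  have hBle : #B ≤ #ι := by
    refine (Cardinal.mk_range_le).trans ?_
    rw [Cardinal.mk_finsupp_lift_of_infinite']
    simp only [Cardinal.lift_uzero, Cardinal.lift_id', Cardinal.mk_int, Cardinal.lift_aleph0]
    exact max_le le_rfl hιinf
  have hιle : #ι ≤ #(mulG B (p ^ w)) := by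
    refine Cardinal.mk_le_of_injective (f := fun i =>
      (⟨p ^ w • (⟨z i, Finsupp.single i 1, by simp⟩ : B), ⟨_, rfl⟩⟩ : mulG B (p ^ w))) ?_
    intro i j hij
    by_contra hne
    have h1 : p ^ w • z i = p ^ w • z j := congrArg (fun x => ((x.1 : B) : G)) hij
    have h2 := hz2 (Finsupp.single i 1 - Finsupp.single j 1) (by
      have : p ^ w • comb z (Finsupp.single i 1 - Finsupp.single j 1) = 0 := by
        rw [map_sub, comb_single, comb_single, one_smul, one_smul, smul_sub, h1, sub_self]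
      rw [this]
      exact zero_mem _) i
    rw [Finsupp.sub_apply, Finsupp.single_eq_same, Finsupp.single_eq_of_ne (by exact hne),
      sub_zero] at h2
    exact hp.one_lt.ne' (by exact_mod_cast Int.eq_one_of_dvd_one (by positivity) h2)
  have hmul : #(mulG B (p ^ w)) = #B :=
    le_antisymm (Cardinal.mk_subtype_le _) (hBle.trans hιle)
  have hBcard : 𝔠 ≤ #B := hμ.trans (hι.le.trans (hιle.trans (Cardinal.mk_subtype_le _)))
  refine ⟨B, C, hC1, hC2, hB1, ?_, ?_⟩
  · exact goodTop_of_homog hBcard hp (fun y => Subtype.ext (hB1 y.1 y.2)) hmul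
  · -- the layer of the complement
    choose κ hκ using hz3
    refine le_trans ?_ hW
    refine Cardinal.mk_le_of_injective (f := fun y => (⟨y.1 - p ^ w • comb z (κ y.1 y.2.1), hκ _ _⟩ :
      layerG G p (w + 1))) ?_
    intro y y' h
    have h1 : y.1 - p ^ w • comb z (κ y.1 y.2.1) = y'.1 - p ^ w • comb z (κ y'.1 y'.2.1) :=
      congrArg Subtype.val h
    have h2 : y.1 - y'.1 ∈ B := by
      have h4 : y.1 - y'.1 = p ^ w • comb z (κ y.1 y.2.1) - p ^ w • comb z (κ y'.1 y'.2.1) := by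
        generalize p ^ w • comb z (κ y.1 y.2.1) = a at h1 ⊢
        generalize p ^ w • comb z (κ y'.1 y'.2.1) = a' at h1 ⊢
        rw [sub_eq_sub_iff_add_eq_add] at h1 ⊢
        rw [add_comm a]
        rw [← h1]
      rw [h4]
      refine B.sub_mem (B.nsmul_mem ⟨_, rfl⟩ _) (B.nsmul_mem ⟨_, rfl⟩ _)
    have h3 : y.1 - y'.1 ∈ C ⊓ B := ⟨C.sub_mem y.2.2 y'.2.2, h2⟩
    rw [hC1, AddSubgroup.mem_bot, sub_eq_zero] at h3
    exact Subtype.ext h3

end Pool.Agent.H66
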