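import Mathlib
import Pool.Agent.H66.Split

/-! Decomposition of abelian groups and assembly (used for `MP_451483_gt`). -/

open Set Filter Topology
open Cardinal hiding univ

namespace Pool.Agent.H66

universe u

/-- internal direct sum decomposition as an isomorphism -/
theorem exists_addEquiv_of_compl {G : Type u} [AddCommGroup G] {C B : AddSubgroup G}
    (h1 : C ⊓ B = ⊥) (h2 : C ⊔ B = ⊤) : Nonempty (G ≃+ C × B) := by
  let f : C × B →+ G := (C.subtype.comp (AddMonoidHom.fst C B)) + (B.subtype.comp
    (AddMonoidHom.snd C B))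
  have hf : ∀ x : C × B, f x = x.1 + x.2 := fun x => rfl
  refine ⟨(AddEquiv.ofBijective f ⟨?_, ?_⟩).symm⟩
  · rw [injective_iff_map_eq_zero]
    rintro ⟨c, b⟩ h
    rw [hf] at h
    simp only at h
    have hcb : (c : G) ∈ C ⊓ B := ⟨c.2, by
      rw [eq_neg_of_add_eq_zero_left h]
      exact B.neg_mem b.2⟩
    rw [h1, AddSubgroup.mem_bot] at hcb
    have hb : (b : G) = 0 := by rw [hcb, zero_add] at h; exact h
    exact Prod.ext (Subtype.ext hcb) (Subtype.ext hb)
  · intro y
    have : y ∈ C ⊔ B := by rw [h2]; exact AddSubgroup.mem_top y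
    obtain ⟨c, hc, b, hb, rfl⟩ := AddSubgroup.mem_sup.1 this
    exact ⟨(⟨c, hc⟩, ⟨b, hb⟩), rfl⟩

/-- the decomposition -/
theorem decomp {μ : Cardinal.{u}} (hμ : 𝔠 ≤ μ) : ∀ e : ℕ, e ≠ 0 → ∀ (G : Type u)
    [AddCommGroup G], #(mulG G e) ≤ μ → ∃ (G₁ B : Type u) (_ : AddCommGroup G₁)
      (_ : AddCommGroup B), Nonempty (G ≃+ G₁ × B) ∧ #G₁ ≤ μ ∧ (∀ b : B, e • b = 0) ∧
        GoodTop B := by
  have hμ0 : ℵ₀ ≤ μ := aleph0_le_continuum.trans hμ
  intro e
  induction e using Nat.strong_induction_on with
  | _ e ih =>
    intro he G _ hG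
    by_cases he1 : e = 1
    · subst he1
      refine ⟨G, PUnit, inferInstance, inferInstance, ⟨AddEquiv.prodUnique.symm⟩, ?_, ?_, ?_⟩
      · refine le_trans ?_ hG
        exact Cardinal.mk_le_of_injective (f := fun y : G => (⟨y, y, by simp⟩ : mulG G 1))
          (fun y y' h => congrArg Subtype.val h)
      · intro b; rfl
      · exact goodTop_of_subsingleton inferInstance
    · set p := e.minFac with hpdef
      have hp : p.Prime := Nat.minFac_prime he1
      obtain ⟨e', he'⟩ := Nat.minFac_dvd e
      rw [← hpdef] at he'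
      have he'0 : e' ≠ 0 := by
        rintro rfl
        exact he (by rw [he', mul_zero])
      have hlt : e' < e := by
        rw [he']
        have := hp.two_le
        have := Nat.pos_of_ne_zero he'0
        nlinarith
      by_cases hle : #(mulG G e') ≤ μ
      · obtain ⟨G₁, B, i1, i2, h1, h2, h3, h4⟩ := ih e' hlt he'0 G hle
        refine ⟨G₁, B, i1, i2, h1, h2, fun b => ?_, h4⟩
        rw [he', mul_smul, h3, smul_zero]
      · have hgt := not_le.1 hle
        obtain ⟨w, u, hu, hwu⟩ := Nat.exists_eq_pow_mul_and_not_dvd he'0 p hp.ne_one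
        -- fibres of multiplication by `p`
        have hfib : ∀ (X : AddSubgroup G), X ≤ mulG G e' → #(↥(layerG G p w ⊓ X)) ≤ μ →
            #X ≤ μ := by
          intro X hX hlayer
          refine mk_le_of_fibers hμ0 (fun y : X => (⟨p • y.1, ?_⟩ : mulG G e)) hG ?_
          · obtain ⟨z, hz⟩ := hX y.2
            have hz : e' • z = y.1 := hz
            refine ⟨z, ?_⟩
            change e • z = p • y.1
            rw [he', mul_smul, hz]
          · intro t
            rcases isEmpty_or_nonempty {x : X // (⟨p • x.1, by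
                obtain ⟨z, hz⟩ := hX x.2
                have hz : e' • z = x.1 := hz
                refine ⟨z, ?_⟩
                change e • z = p • x.1
                rw [he', mul_smul, hz]⟩ : mulG G e) = t} with hemp | ⟨⟨x₀, hx₀⟩⟩
            · rw [Cardinal.mk_eq_zero]
              exact bot_le
            · refine le_trans ?_ hlayer
              refine Cardinal.mk_le_of_injective
                (f := fun x => (⟨x.1.1 - x₀.1, ?_⟩ : ↥(layerG G p w ⊓ X))) ?_
              · have h1 := congrArg Subtype.val x.2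
                have h2 := congrArg Subtype.val hx₀
                simp only at h1 h2
                refine ⟨⟨?_, ?_⟩, X.sub_mem x.1.2 x₀.2⟩
                · have h3 : mulG G e' ≤ mulG G (p ^ w) := by
                    rw [hwu]; exact mulG_mul_le _ _
                  exact AddSubgroup.sub_mem _ (h3 (hX x.1.2)) (h3 (hX x₀.2))
                · change p • (x.1.1 - x₀.1) = 0
                  rw [smul_sub, h1, h2, sub_self]
              · intro x x' hxx'
                apply Subtype.ext
                apply Subtype.ext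
                have := congrArg Subtype.val hxx'
                simpa using this
        have hV : μ < #(layerG G p w) := by
          by_contra hcon
          have hcon := not_lt.1 hcon
          have h1 : #(↥(layerG G p w ⊓ mulG G e')) ≤ μ :=
            (Cardinal.mk_le_mk_of_subset inf_le_left).trans hcon
          exact absurd (hfib (mulG G e') le_rfl h1) (not_le.2 hgt)
        have hW : #(layerG G p (w + 1)) ≤ μ := by
          refine (Cardinal.mk_le_mk_of_subset ?_).trans hG
          rintro x ⟨⟨y, hy⟩, hpx⟩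
          have hy : p ^ (w + 1) • y = x := hy
          have hpx : p • x = 0 := hpx
          have hcop : IsCoprime (u : ℤ) p :=
            (Nat.isCoprime_iff_coprime.2 ((Nat.Prime.coprime_iff_not_dvd hp).2 hu)).symm
          obtain ⟨s, t, hst⟩ := hcop
          refine ⟨s • y, ?_⟩
          change e • s • y = x
          have h1 : x = s • u • x + t • p • x := by
            rw [← natCast_zsmul x u, ← natCast_zsmul x p, ← mul_smul, ← mul_smul, ← add_smul, hst,
              one_smul]
          rw [h1, hpx, smul_zero, add_zero, smul_comm, ← hy, ← mul_smul, he', hwu]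
          congr 2
          ring
        obtain ⟨B₀, C, hC1, hC2, hB0, hB0good, hCl⟩ := exists_homog_summand hμ hp hV hW
        obtain ⟨ε⟩ := exists_addEquiv_of_compl hC1 hC2
        have hC : #(mulG C e') ≤ μ := by
          have h1 : #((mulG C e').map C.subtype) ≤ μ := by
            apply hfib
            · rintro _ ⟨y, ⟨z, rfl⟩, rfl⟩
              exact ⟨z, rfl⟩
            · refine (Cardinal.mk_le_mk_of_subset ?_).trans hCl
              rintro x ⟨hx1, y, hy, rfl⟩
              exact ⟨hx1, y.2⟩
          refine le_trans ?_ h1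
          exact Cardinal.mk_le_of_injective
            (f := fun y : mulG C e' => (⟨(y.1 : G), ⟨y.1, y.2, rfl⟩⟩ : (mulG C e').map C.subtype))
            (by
              intro y y' h
              apply Subtype.ext
              apply Subtype.ext
              exact congrArg (fun x : (mulG C e').map C.subtype => (x : G)) h)
        obtain ⟨G₁, B₁, i1, i2, ⟨ε'⟩, h2, h3, h4⟩ := ih e' hlt he'0 C hC
        refine ⟨G₁, B₁ × B₀, i1, inferInstance, ⟨?_⟩, h2, ?_, h4.prod hB0good⟩
        · exact (ε.trans (ε'.prodCongr (AddEquiv.refl B₀))).trans AddEquiv.prodAssoc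
        · rintro ⟨b₁, b₀⟩
          have e1 : e • b₁ = 0 := by rw [he', mul_smul, h3, smul_zero]
          have e2 : e • b₀ = 0 := by
            apply Subtype.ext
            change e • (b₀ : G) = 0
            rw [he', hwu, ← mul_assoc, ← pow_succ', mul_comm, mul_smul, hB0 _ b₀.2, smul_zero]
          exact Prod.ext e1 e2

/-- comparison of multiples under a decomposition -/
theorem mk_mulG_le {G G₁ B : Type u} [AddCommGroup G] [AddCommGroup G₁] [AddCommGroup B]
    (ε : G ≃+ G₁ × B) {e : ℕ} (hB : ∀ b : B, e • b = 0) (n : ℕ) :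
    #(mulG G (e * n)) ≤ #(mulG G₁ n) := by
  refine Cardinal.mk_le_of_injective (f := fun y => (⟨(ε y.1).1, ?_⟩ : mulG G₁ n)) ?_
  · obtain ⟨z, hz⟩ := y.2
    have hz : (e * n) • z = y.1 := hz
    refine ⟨e • (ε z).1, ?_⟩
    change n • e • (ε z).1 = (ε y.1).1
    rw [← hz, map_nsmul, ← mul_smul, mul_comm]
    rfl
  · intro y y' h
    have h1 : (ε y.1).1 = (ε y'.1).1 := congrArg Subtype.val h
    have h2 : ∀ y : mulG G (e * n), (ε y.1).2 = 0 := by
      intro y
      obtain ⟨z, hz⟩ := y.2
      have hz : (e * n) • z = y.1 := hz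
      rw [← hz, map_nsmul]
      change (e * n) • (ε z).2 = 0
      rw [mul_comm, mul_smul, hB, smul_zero]
    apply Subtype.ext
    apply ε.injective
    exact Prod.ext h1 (by rw [h2, h2])

/-- groups of infinite exponent -/
theorem goodTop_of_inf {G : Type u} [AddCommGroup G]
    (h : ∀ n : ℕ, n ≠ 0 → 𝔠 ≤ #(mulG G n)) : GoodTop G := by
  obtain ⟨n₁, hn₁, hmin⟩ : ∃ n₁ : ℕ, n₁ ≠ 0 ∧ ∀ n : ℕ, n ≠ 0 → #(mulG G n₁) ≤ #(mulG G n) := by
    let S : Set Cardinal.{u} := {c | ∃ n : ℕ, n ≠ 0 ∧ c = #(mulG G n)}
    have hS : S.Nonempty := ⟨_, 1, one_ne_zero, rfl⟩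
    obtain ⟨n₁, hn₁, h1⟩ := WellFounded.min_mem (wellFounded_lt (α := Cardinal.{u})) S hS
    refine ⟨n₁, hn₁, fun n hn => ?_⟩
    rw [← h1]
    exact not_lt.1 (WellFounded.not_lt_min (wellFounded_lt (α := Cardinal.{u})) S ⟨n, hn, rfl⟩)
  obtain ⟨G₁, B, i1, i2, ⟨ε⟩, h2, h3, h4⟩ := decomp (h n₁ hn₁) n₁ hn₁ G le_rfl
  have key : ∀ n : ℕ, n ≠ 0 → #(mulG G n₁) ≤ #(mulG G₁ n) := fun n hn =>
    (hmin (n₁ * n) (mul_ne_zero hn₁ hn)).trans (mk_mulG_le ε h3 n)
  have hfull : ∀ n : ℕ, n ≠ 0 → #(mulG G₁ n) = #G₁ := fun n hn =>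
    le_antisymm (Cardinal.mk_subtype_le _) (h2.trans (key n hn))
  have hG₁ : 𝔠 ≤ #G₁ := (h n₁ hn₁).trans ((key 1 one_ne_zero).trans (Cardinal.mk_subtype_le _))
  exact ((goodTop_of_full hG₁ hfull).prod h4).congr ε.symm

/-- primary parts -/
theorem mulG_ker {G : Type u} [AddCommGroup G] {a b : ℕ} (hab : Nat.Coprime a b)
    (hG : ∀ y : G, (a * b) • y = 0) (h : ∀ n : ℕ, mulG G n = ⊥ ∨ 𝔠 ≤ #(mulG G n)) (n : ℕ) :
    mulG ((nsmulAddMonoidHom (α := G) a).ker) n = ⊥ ∨
      𝔠 ≤ #(mulG ((nsmulAddMonoidHom (α := G) a).ker) n) := by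
  rcases h (b * n) with h1 | h1
  · left
    rw [eq_bot_iff]
    rintro _ ⟨z, rfl⟩
    rw [AddSubgroup.mem_bot]
    apply Subtype.ext
    change n • (z : G) = 0
    have hz : a • (z : G) = 0 := z.2
    have h2 : b • n • (z : G) = 0 := by
      have : (b * n) • (z : G) ∈ mulG G (b * n) := ⟨z, rfl⟩
      rw [h1, AddSubgroup.mem_bot, mul_smul] at this
      exact this
    have h3 : a • n • (z : G) = 0 := by rw [smul_comm, hz, smul_zero]
    obtain ⟨s, t, hst⟩ := Nat.isCoprime_iff_coprime.2 hab
    rw [← one_smul ℤ (n • (z : G)), ← hst, add_smul, mul_smul, mul_smul, natCast_zsmul,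
      natCast_zsmul, h2, h3, smul_zero, smul_zero, add_zero]
  · right
    refine h1.trans ?_
    refine Cardinal.mk_le_of_injective (f := fun y : mulG G (b * n) =>
      (⟨⟨y.1, ?_⟩, ?_⟩ : mulG ((nsmulAddMonoidHom (α := G) a).ker) n)) ?_
    · obtain ⟨z, hz⟩ := y.2
      have hz : (b * n) • z = y.1 := hz
      change a • y.1 = 0
      rw [← hz, ← mul_smul, ← mul_assoc, mul_comm, mul_smul, hG, smul_zero]
    · obtain ⟨z, hz⟩ := y.2
      have hz : (b * n) • z = y.1 := hz
      refine ⟨⟨b • z, ?_⟩, ?_⟩
      · change a • b • z = 0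
        rw [← mul_smul, hG]
      · apply Subtype.ext
        change n • b • z = y.1
        rw [← hz, ← mul_smul, mul_comm]
    · intro y y' h
      exact Subtype.ext (congrArg (fun x => ((x.1 : (nsmulAddMonoidHom (α := G) a).ker) : G)) h)

/-- groups of finite exponent -/
theorem goodTop_of_fin : ∀ N : ℕ, N ≠ 0 → ∀ (G : Type u) [AddCommGroup G],
    (∀ y : G, N • y = 0) → (∀ n : ℕ, mulG G n = ⊥ ∨ 𝔠 ≤ #(mulG G n)) → GoodTop G := by
  intro N
  induction N using Nat.strong_induction_on with
  | _ N ih =>
    intro hN G _ hG h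
    by_cases hN1 : N = 1
    · subst hN1
      refine goodTop_of_subsingleton ⟨fun x y => ?_⟩
      have h1 := hG x
      have h2 := hG y
      rw [one_smul] at h1 h2
      rw [h1, h2]
    · set p := N.minFac with hpdef
      have hp : p.Prime := Nat.minFac_prime hN1
      obtain ⟨k, u, hu, hku⟩ := Nat.exists_eq_pow_mul_and_not_dvd hN p hp.ne_one
      have hk : k ≠ 0 := by
        rintro rfl
        rw [pow_zero, one_mul] at hku
        exact hu (hku ▸ Nat.minFac_dvd N)
      have hu0 : u ≠ 0 := by
        rintro rfl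
        exact hu (dvd_zero _)
      by_cases hu1 : u = 1
      · -- prime power
        subst hu1
        rw [mul_one] at hku
        obtain ⟨v, rfl⟩ := Nat.exists_eq_succ_of_ne_zero hk
        by_cases hv : ∀ y : G, p ^ v • y = 0
        · refine ih (p ^ v) ?_ (pow_ne_zero _ hp.ne_zero) G hv h
          rw [hku]
          exact Nat.pow_lt_pow_right hp.one_lt (Nat.lt_succ_self v)
        · rcases h (p ^ v) with h1 | h1
          · exfalso
            apply hv
            intro y
            have : p ^ v • y ∈ mulG G (p ^ v) := ⟨y, rfl⟩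
            rwa [h1, AddSubgroup.mem_bot] at this
          · obtain ⟨G₁, B, i1, i2, ⟨ε⟩, h2, h3, h4⟩ :=
              decomp h1 (p ^ v) (pow_ne_zero _ hp.ne_zero) G le_rfl
            have key : #(mulG G (p ^ v)) ≤ #(mulG G₁ (p ^ v)) := by
              refine Cardinal.mk_le_of_injective
                (f := fun y => (⟨(ε y.1).1, ?_⟩ : mulG G₁ (p ^ v))) ?_
              · obtain ⟨z, hz⟩ := y.2
                have hz : (p ^ v) • z = y.1 := hz
                refine ⟨(ε z).1, ?_⟩
                change (p ^ v) • (ε z).1 = (ε y.1).1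
                rw [← hz, map_nsmul]
                rfl
              · intro y y' h
                have h1 : (ε y.1).1 = (ε y'.1).1 := congrArg Subtype.val h
                have h2 : ∀ y : mulG G (p ^ v), (ε y.1).2 = 0 := by
                  intro y
                  obtain ⟨z, hz⟩ := y.2
                  have hz : (p ^ v) • z = y.1 := hz
                  rw [← hz, map_nsmul]
                  exact h3 _
                apply Subtype.ext
                apply ε.injective
                exact Prod.ext h1 (by rw [h2, h2])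
            have hfull : #(mulG G₁ (p ^ v)) = #G₁ :=
              le_antisymm (Cardinal.mk_subtype_le _) (h2.trans key)
            have hG₁ : 𝔠 ≤ #G₁ := h1.trans (key.trans (Cardinal.mk_subtype_le _))
            have he : ∀ y : G₁, p ^ (v + 1) • y = 0 := by
              intro y
              have h5 := hG (ε.symm (y, 0))
              have h6 : ε (N • ε.symm (y, 0)) = 0 := by rw [h5, map_zero]
              rw [map_nsmul, AddEquiv.apply_symm_apply] at h6
              have h7 := congrArg Prod.fst h6
              rw [hku] at h7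
              exact h7
            exact ((goodTop_of_homog hG₁ hp he hfull).prod h4).congr ε.symm
      · -- splitting into coprime parts
        have hcop : Nat.Coprime (p ^ k) u :=
          Nat.Coprime.pow_left k ((Nat.Prime.coprime_iff_not_dvd hp).2 hu)
        have hpk1 : 1 < p ^ k := Nat.one_lt_pow hk hp.one_lt
        have hu2 : 1 < u := by omega
        have hG1 : ∀ y : G, (p ^ k * u) • y = 0 := fun y => by rw [← hku]; exact hG y
        have hG2 : ∀ y : G, (u * p ^ k) • y = 0 := fun y => by rw [mul_comm, ← hku]; exact hG y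
        have hA := ih (p ^ k) (by rw [hku]; nlinarith) (pow_ne_zero _ hp.ne_zero)
          ((nsmulAddMonoidHom (α := G) (p ^ k)).ker) (fun y => Subtype.ext y.2)
          (mulG_ker hcop hG1 h)
        have hB := ih u (by rw [hku]; nlinarith) hu0
          ((nsmulAddMonoidHom (α := G) u).ker) (fun y => Subtype.ext y.2)
          (mulG_ker hcop.symm hG2 h)
        obtain ⟨s, t, hst⟩ := Nat.isCoprime_iff_coprime.2 hcop
        obtain ⟨ε⟩ := exists_addEquiv_of_compl (G := G)
          (C := (nsmulAddMonoidHom (α := G) (p ^ k)).ker) (B := (nsmulAddMonoidHom (α := G) u).ker)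
          (by
            rw [eq_bot_iff]
            rintro y ⟨h1, h2⟩
            have h1 : (p ^ k) • y = 0 := h1
            have h2 : u • y = 0 := h2
            rw [AddSubgroup.mem_bot, ← one_smul ℤ y, ← hst, add_smul, mul_smul, mul_smul,
              natCast_zsmul, natCast_zsmul, h1, h2, smul_zero, smul_zero, add_zero])
          (by
            rw [eq_top_iff]
            intro y _
            have h1 : y = t • (u • y) + s • ((p ^ k) • y) := by
              conv_lhs => rw [← one_smul ℤ y, ← hst, add_smul, mul_smul, mul_smul,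
                natCast_zsmul, natCast_zsmul]
              rw [add_comm]
            rw [h1]
            refine AddSubgroup.add_mem _ (AddSubgroup.mem_sup_left ?_) (AddSubgroup.mem_sup_right ?_)
            · apply AddSubgroup.zsmul_mem
              change (p ^ k) • u • y = 0
              rw [← mul_smul, hG1]
            · apply AddSubgroup.zsmul_mem
              change u • (p ^ k) • y = 0
              rw [← mul_smul, hG2])
        exact (hA.prod hB).congr ε.symm

/-- every abelian group whose multiples are trivial or of size at least continuum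
has a good topology -/
theorem goodTop_of_mulG {G : Type u} [AddCommGroup G]
    (h : ∀ n : ℕ, mulG G n = ⊥ ∨ 𝔠 ≤ #(mulG G n)) : GoodTop G := by
  by_cases hN : ∃ N : ℕ, N ≠ 0 ∧ mulG G N = ⊥
  · obtain ⟨N, hN0, hN⟩ := hN
    refine goodTop_of_fin N hN0 G (fun y => ?_) h
    have : N • y ∈ mulG G N := ⟨y, rfl⟩
    rwa [hN, AddSubgroup.mem_bot] at this
  · push Not at hN
    exact goodTop_of_inf fun n hn => (h n).resolve_left (hN n hn)

end Pool.Agent.H66
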